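import Mathlib

/-!
Systems of weighted pieces and the ideal of small sets.
-/

namespace Pool.Agent.P.MP_f6e960_lc

open Finset Filter Topology
open scoped Classical

/-- The natural numbers are cut into finite pieces, grouped into finite blocks; all points of a
piece have the same weight. -/
structure Sys (ι : Type) where
  pc : ℕ → ι
  F : ι → Finset ℕ
  bl : ι → ℕ
  B : ℕ → Finset ι
  w : ι → ℝ
  mem_F : ∀ x P, x ∈ F P ↔ pc x = P
  F_ne : ∀ P, (F P).Nonempty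
  mem_B : ∀ P n, P ∈ B n ↔ bl P = n
  w_nonneg : ∀ P, 0 ≤ w P
  mass : ∀ n, ∑ P ∈ B n, w P * (F P).card ≤ 1
  geo : ∀ n, ∀ H ⊆ B n, H.Nonempty → ∃ P ∈ H, ∑ Q ∈ H, w Q ≤ 2 * w P
  tall : Tendsto (fun n => ∑ P ∈ B n, w P) atTop (𝓝 0)

namespace Sys

variable {ι : Type} (S : Sys ι)

/-- Block of a point. -/
def b (x : ℕ) : ℕ := S.bl (S.pc x)

/-- Points of a block. -/
noncomputable def D (n : ℕ) : Finset ℕ := (S.B n).biUnion S.F

/-- Size of a piece. -/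
noncomputable def N (P : ι) : ℝ := (S.F P).card

/-- Dyadic scale of the size of a piece. -/
def sc (P : ι) : ℕ := Nat.log 2 (S.F P).card

/-- Number of points of a piece in a set. -/
noncomputable def cnt (X : Set ℕ) (P : ι) : ℝ := ((S.F P).filter (· ∈ X)).card

/-- Weight of a set in a block. -/
noncomputable def mu (n : ℕ) (X : Set ℕ) : ℝ := ∑ x ∈ S.D n, if x ∈ X then S.w (S.pc x) else 0

/-- Weight of a set of pieces in a block. -/
noncomputable def nu (n : ℕ) (V : Set ι) : ℝ := S.mu n (S.pc ⁻¹' V)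

/-- Small sets. -/
def Small (X : Set ℕ) : Prop := ∀ γ : ℝ, 0 < γ → ∀ᶠ n in atTop, S.mu n X ≤ γ

/-- Relations that send small sets of pieces to small sets of pieces. -/
def Inv (O : ι → ι → Prop) : Prop :=
  ∀ V : Set ι, S.Small (S.pc ⁻¹' V) → S.Small (S.pc ⁻¹' {P | ∃ Q ∈ V, O Q P})

/-- The splitting property for involutions. -/
def Split : Prop := ∀ g : ℕ → ℕ, Function.Involutive g →
  ∃ T : Set ℕ, (∀ x, x ∈ T ∨ g x ∈ T) ∧ ∀ X ⊆ T, S.Small X → S.Small (g ⁻¹' X)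

variable {S}

lemma mem_D {x n : ℕ} : x ∈ S.D n ↔ S.b x = n := by
  simp only [D, mem_biUnion, S.mem_F, S.mem_B, b]
  exact ⟨fun ⟨P, h1, h2⟩ => h2 ▸ h1, fun h => ⟨_, h, rfl⟩⟩

lemma mem_F_self (x : ℕ) : x ∈ S.F (S.pc x) := (S.mem_F _ _).2 rfl

lemma b_of_mem {x : ℕ} {P : ι} (h : x ∈ S.F P) : S.b x = S.bl P := by
  rw [b, (S.mem_F _ _).1 h]

lemma disjoint_F {P Q : ι} (h : P ≠ Q) : Disjoint (S.F P) (S.F Q) :=
  Finset.disjoint_left.2 fun _ h1 h2 => h (((S.mem_F _ _).1 h1).symm.trans ((S.mem_F _ _).1 h2))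

lemma card_F_pos (P : ι) : 0 < (S.F P).card := (S.F_ne P).card_pos

lemma N_pos (P : ι) : 0 < S.N P := by unfold N; exact_mod_cast card_F_pos P

lemma pow_le_card (P : ι) : 2 ^ S.sc P ≤ (S.F P).card := Nat.pow_log_le_self 2 (card_F_pos P).ne'

lemma card_lt_pow (P : ι) : (S.F P).card < 2 ^ (S.sc P + 1) :=
  Nat.lt_pow_succ_log_self (by norm_num) _

lemma pow_le_N (P : ι) : (2 : ℝ) ^ S.sc P ≤ S.N P := by unfold N; exact_mod_cast pow_le_card P

lemma N_le_pow (P : ι) : S.N P ≤ 2 * 2 ^ S.sc P := by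
  have := (card_lt_pow (S := S) P).le
  rw [pow_succ'] at this
  unfold N; exact_mod_cast this

lemma cnt_nonneg (X : Set ℕ) (P : ι) : 0 ≤ S.cnt X P := Nat.cast_nonneg _

lemma cnt_le_N (X : Set ℕ) (P : ι) : S.cnt X P ≤ S.N P := by
  unfold cnt N; exact_mod_cast card_filter_le _ _

lemma mu_nonneg (n : ℕ) (X : Set ℕ) : 0 ≤ S.mu n X :=
  sum_nonneg fun x _ => by split_ifs; exacts [S.w_nonneg _, le_rfl]

lemma mu_mono' {n : ℕ} {X Y : Set ℕ} (h : ∀ x, S.b x = n → x ∈ X → x ∈ Y) :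
    S.mu n X ≤ S.mu n Y := by
  refine sum_le_sum fun x hx => ?_
  by_cases h1 : x ∈ X
  · simp [h1, h x (mem_D.1 hx) h1]
  · rw [if_neg h1]; split_ifs; exacts [S.w_nonneg _, le_rfl]

lemma mu_mono {n : ℕ} {X Y : Set ℕ} (h : X ⊆ Y) : S.mu n X ≤ S.mu n Y :=
  mu_mono' fun _ _ hx => h hx

lemma mu_empty (n : ℕ) : S.mu n ∅ = 0 := by simp [mu]

lemma mu_eq_zero {n : ℕ} {X : Set ℕ} (h : ∀ x ∈ X, S.b x ≠ n) : S.mu n X = 0 :=
  le_antisymm ((mu_mono' fun x h1 h2 => (h x h2 h1).elim).trans (mu_empty n).le) (mu_nonneg _ _)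

lemma mu_union_le (n : ℕ) (X Y : Set ℕ) : S.mu n (X ∪ Y) ≤ S.mu n X + S.mu n Y := by
  unfold mu
  rw [← sum_add_distrib]
  refine sum_le_sum fun x _ => ?_
  have := S.w_nonneg (S.pc x)
  by_cases h1 : x ∈ X <;> by_cases h2 : x ∈ Y <;> simp [h1, h2, this]

lemma mu_biUnion_le (n : ℕ) (V : ℕ → Set ℕ) (R : ℕ) :
    S.mu n (⋃ r ∈ range R, V r) ≤ ∑ r ∈ range R, S.mu n (V r) := by
  induction R with
  | zero => simp [mu_empty]
  | succ R ih =>
    rw [range_add_one, set_biUnion_insert, sum_insert notMem_range_self]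
    exact (mu_union_le _ _ _).trans (by linarith)

lemma mu_iUnion_le {n : ℕ} {V : ℕ → Set ℕ} {c : ℝ} (h : ∀ r, S.mu n (V r) ≤ c * (1 / 2) ^ r) :
    S.mu n (⋃ r, V r) ≤ 2 * c := by
  have hc : 0 ≤ c := by simpa using (mu_nonneg n (V 0)).trans (h 0)
  have h1 : ∀ x, ∃ r, x ∈ ⋃ r, V r → x ∈ V r := fun x => by
    by_cases hx : x ∈ ⋃ r, V r
    · obtain ⟨r, hr⟩ := Set.mem_iUnion.1 hx
      exact ⟨r, fun _ => hr⟩
    · exact ⟨0, fun h => (hx h).elim⟩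
  choose ρ hρ using h1
  set R := (S.D n).sup ρ + 1
  refine (mu_mono' (Y := ⋃ r ∈ range R, V r) fun x hx hV => ?_).trans
    ((mu_biUnion_le n V R).trans ((sum_le_sum fun r _ => h r).trans ?_))
  · exact Set.mem_biUnion (mem_coe.2 (mem_range.2 (Nat.lt_succ_of_le
      (le_sup (f := ρ) (mem_D.2 hx))))) (hρ x hV)
  · rw [← mul_sum, mul_comm]
    exact mul_le_mul_of_nonneg_right (sum_geometric_two_le R) hc

lemma mu_eq (n : ℕ) (X : Set ℕ) : S.mu n X = ∑ P ∈ S.B n, S.w P * S.cnt X P := by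
  rw [mu, D, sum_biUnion fun P _ Q _ h => disjoint_F h]
  refine sum_congr rfl fun P _ => ?_
  rw [← sum_filter, sum_congr rfl (g := fun _ => S.w P) fun x hx => by
    rw [(S.mem_F _ _).1 (mem_filter.1 hx).1], sum_const, nsmul_eq_mul, mul_comm, cnt]

lemma cnt_preimage (V : Set ι) (P : ι) :
    S.cnt (S.pc ⁻¹' V) P = if P ∈ V then S.N P else 0 := by
  unfold cnt N
  split_ifs with h
  · rw [filter_true_of_mem fun x hx => by rwa [Set.mem_preimage, (S.mem_F _ _).1 hx]]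
  · rw [filter_false_of_mem fun x hx => by rwa [Set.mem_preimage, (S.mem_F _ _).1 hx]]
    simp

lemma cnt_eq (X : Set ℕ) [DecidablePred (· ∈ X)] (P : ι) :
    S.cnt X P = ((S.F P).filter (· ∈ X)).card := by unfold cnt; congr

lemma nu_eq (n : ℕ) (V : Set ι) [DecidablePred (· ∈ V)] :
    S.nu n V = ∑ P ∈ S.B n, if P ∈ V then S.w P * S.N P else 0 := by
  rw [nu, mu_eq]
  refine sum_congr rfl fun P _ => ?_
  rw [cnt_preimage]; split_ifs <;> simp

lemma nu_eq' (n : ℕ) (V : Set ι) [DecidablePred (· ∈ V)] :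
    S.nu n V = ∑ P ∈ (S.B n).filter (· ∈ V), S.w P * S.N P := by rw [nu_eq, sum_filter]

lemma mass' (n : ℕ) : ∑ P ∈ S.B n, S.w P * S.N P ≤ 1 := S.mass n

lemma pi_nonneg (P : ι) : 0 ≤ S.w P * S.N P := mul_nonneg (S.w_nonneg P) (N_pos P).le

lemma mu_le_one (n : ℕ) (X : Set ℕ) : S.mu n X ≤ 1 := by
  rw [mu_eq]
  exact (sum_le_sum fun P _ =>
    mul_le_mul_of_nonneg_left (cnt_le_N X P) (S.w_nonneg P)).trans (mass' n)

lemma nu_mono' {n : ℕ} {V W : Set ι} (h : ∀ P, S.bl P = n → P ∈ V → P ∈ W) :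
    S.nu n V ≤ S.nu n W := mu_mono' fun _ h1 h2 => h _ h1 h2

lemma nu_union_le (n : ℕ) (V W : Set ι) : S.nu n (V ∪ W) ≤ S.nu n V + S.nu n W :=
  mu_union_le n _ _

/-- Upper bound for a weight from counts. -/
lemma mu_le_of_cnt {n : ℕ} {X : Set ℕ} {V : Set ι} {η : ℝ} (hη : 0 ≤ η)
    (h : ∀ P, S.bl P = n → P ∉ V → S.cnt X P ≤ η * S.N P) : S.mu n X ≤ S.nu n V + η := by
  have h1 : η * ∑ P ∈ S.B n, S.w P * S.N P ≤ η := mul_le_of_le_one_right hη (mass' n)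
  rw [mu_eq, nu_eq]
  refine le_trans ?_ (add_le_add le_rfl h1)
  rw [mul_sum, ← sum_add_distrib]
  refine sum_le_sum fun P hP => ?_
  have h2 := S.w_nonneg P
  have h3 := mul_nonneg hη (pi_nonneg (S := S) P)
  split_ifs with hV
  · have := mul_le_mul_of_nonneg_left (cnt_le_N (S := S) X P) h2
    linarith
  · have := mul_le_mul_of_nonneg_left (h P ((S.mem_B _ _).1 hP) hV) h2
    linarith

/-- Lower bound for a weight from counts. -/
lemma le_mu_of_cnt {n : ℕ} {X : Set ℕ} {V : Set ι} {θ : ℝ}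
    (h : ∀ P, S.bl P = n → P ∈ V → θ * S.N P ≤ S.cnt X P) : θ * S.nu n V ≤ S.mu n X := by
  rw [mu_eq, nu_eq, mul_sum]
  refine sum_le_sum fun P hP => ?_
  have h2 := S.w_nonneg P
  split_ifs with hV
  · have := mul_le_mul_of_nonneg_left (h P ((S.mem_B _ _).1 hP) hV) h2
    linarith
  · simpa using mul_nonneg h2 (cnt_nonneg X P)

lemma Small.mono {X Y : Set ℕ} (h : S.Small Y) (hXY : X ⊆ Y) : S.Small X :=
  fun γ hγ => (h γ hγ).mono fun _ hn => (mu_mono hXY).trans hn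

lemma Small.union {X Y : Set ℕ} (hX : S.Small X) (hY : S.Small Y) : S.Small (X ∪ Y) := by
  intro γ hγ
  filter_upwards [hX (γ / 2) (by linarith), hY (γ / 2) (by linarith)] with n h1 h2
  linarith [mu_union_le (S := S) n X Y]

lemma small_of_bdd {X : Set ℕ} {M : ℕ} (h : ∀ x ∈ X, S.b x ≤ M) : S.Small X := by
  intro γ hγ
  filter_upwards [eventually_gt_atTop M] with n hn
  rw [mu_eq_zero fun x hx e => by have := h x hx; omega]
  exact hγ.le

lemma exists_bl_le {V : Set ι} (h : V.Finite) : ∃ M, ∀ P ∈ V, S.bl P ≤ M := by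
  obtain ⟨M, hM⟩ := (h.image S.bl).bddAbove
  exact ⟨M, fun P hP => hM ⟨P, hP, rfl⟩⟩

lemma finite_bl_lt (M : ℕ) : {P | S.bl P < M}.Finite := by
  refine ((range M).biUnion S.B).finite_toSet.subset fun P hP => ?_
  simp only [coe_biUnion, Set.mem_iUnion, mem_coe, mem_range, S.mem_B]
  exact ⟨_, hP, rfl⟩

lemma small_of_finite {V : Set ι} (h : V.Finite) : S.Small (S.pc ⁻¹' V) := by
  obtain ⟨M, hM⟩ := exists_bl_le (S := S) h
  exact small_of_bdd fun x hx => hM _ hx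

/-- Small sets of pieces from counts. -/
lemma Small.of_cnt {X : Set ℕ} (hX : S.Small X) {V : Set ι} {θ : ℝ} (hθ : 0 < θ)
    (h : ∀ P ∈ V, θ * S.N P ≤ S.cnt X P) : S.Small (S.pc ⁻¹' V) := by
  intro γ hγ
  filter_upwards [hX (θ * γ) (by positivity)] with n hn
  exact le_of_mul_le_mul_left ((le_mu_of_cnt fun P _ hP => h P hP).trans hn) hθ

lemma Inv.mono {O O' : ι → ι → Prop} (h : S.Inv O') (hO : ∀ Q P, O Q P → O' Q P) : S.Inv O :=
  fun V hV => (h V hV).mono fun _ ⟨Q, h1, h2⟩ => ⟨Q, h1, hO _ _ h2⟩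

lemma Inv.or {O O' : ι → ι → Prop} (h : S.Inv O) (h' : S.Inv O') :
    S.Inv fun Q P => O Q P ∨ O' Q P := by
  refine fun V hV => ((h V hV).union (h' V hV)).mono ?_
  rintro x ⟨Q, h1, h2 | h2⟩
  · exact Or.inl ⟨Q, h1, h2⟩
  · exact Or.inr ⟨Q, h1, h2⟩

lemma Inv.comp {O O' : ι → ι → Prop} (h : S.Inv O) (h' : S.Inv O') :
    S.Inv fun Q P => ∃ R, O Q R ∧ O' R P :=
  fun V hV => (h' _ (h V hV)).mono fun _ ⟨Q, h1, R, h2, h3⟩ => ⟨R, ⟨Q, h1, h2⟩, h3⟩

lemma inv_eq : S.Inv fun Q P => Q = P :=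
  fun _ hV => hV.mono fun _ ⟨_, h1, h2⟩ => show S.pc _ ∈ _ from h2 ▸ h1

lemma inv_of_finite {O : ι → ι → Prop} (h : {P | ∃ Q, O Q P}.Finite) : S.Inv O :=
  fun _ _ => (small_of_finite h).mono fun _ ⟨Q, _, h2⟩ => ⟨Q, h2⟩

lemma inv_biUnion {α : Type} (A : Finset α) {O : α → ι → ι → Prop} (h : ∀ a, S.Inv (O a)) :
    S.Inv fun Q P => ∃ a ∈ A, O a Q P := by
  induction A using Finset.induction_on with
  | empty => exact inv_of_finite (by simp)
  | insert a A _ ih => exact ((h a).or ih).mono fun Q P hQ => by simpa using hQ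

end Sys

end Pool.Agent.P.MP_f6e960_lc
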