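import Mathlib

/-!
Finite combinatorial lemmas: a minimax argument, ranks, tournaments, parts, sorting.
-/

namespace Pool.Agent.P.MP_f6e960_lc

open Finset Filter Topology Function
open scoped Classical

lemma lp_fin {ι : Type} {K : Set (ι → ℝ)} (hK : IsCompact K) (hc : Convex ℝ K)
    (u : ℕ → (ι → ℝ) → ℝ) (hu : ∀ n, Continuous (u n))
    (ha : ∀ n x y (t : ℝ), u n (x + t • (y - x)) = u n x + t * (u n y - u n x))
    (I : Finset ℕ) {ε : ℝ} (hε : 0 < ε)
    (h : ∀ a : ℕ → ℝ, (∀ n, 0 ≤ a n) → ∃ y ∈ K, ∑ n ∈ I, a n * u n y ≤ ε * ∑ n ∈ I, a n) :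
    ∃ x ∈ K, ∀ n ∈ I, u n x ≤ 2 * ε := by
  obtain ⟨y0, hy0, -⟩ := h (fun _ => 0) fun _ => le_rfl
  obtain ⟨x, hx, hmin⟩ := hK.exists_isMinOn ⟨y0, hy0⟩
    (f := fun x => ∑ n ∈ I, max (u n x - 2 * ε) 0 ^ 2) (by fun_prop)
  refine ⟨x, hx, fun n hn => ?_⟩
  by_contra hlt
  set a : ℕ → ℝ := fun n => max (u n x - 2 * ε) 0 with had
  have ha0 : ∀ n, 0 ≤ a n := fun n => le_max_right _ _
  obtain ⟨y, hy, hay⟩ := h a ha0
  have hA : 0 < ∑ n ∈ I, a n := lt_of_lt_of_le (lt_max_of_lt_left (by linarith))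
    (single_le_sum (fun n _ => ha0 n) hn)
  set A := ∑ n ∈ I, a n
  set Q := ∑ n ∈ I, (u n y - u n x) ^ 2 with hQ
  have hQ0 : 0 ≤ Q := sum_nonneg fun _ _ => sq_nonneg _
  have h1 : ∑ n ∈ I, a n * (u n y - u n x) ≤ -(ε * A) := by
    have : 2 * ε * A ≤ ∑ n ∈ I, a n * u n x := by
      rw [mul_sum]
      refine sum_le_sum fun n _ => ?_
      rcases le_total (u n x - 2 * ε) 0 with h' | h'
      · simp [had, h']
      · nlinarith [ha0 n]
    simp only [mul_sub, sum_sub_distrib]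
    linarith
  set t := min 1 (ε * A / (Q + 1)) with ht
  have ht0 : 0 < t := lt_min one_pos (by positivity)
  have ht1 : t * (Q + 1) ≤ ε * A := (le_div_iff₀ (by positivity)).1 (min_le_right _ _)
  have h2 := hmin (hc.add_smul_sub_mem hx hy ⟨ht0.le, min_le_left _ _⟩)
  simp only [Set.mem_ofPred_eq, ha] at h2
  have h3 : ∑ n ∈ I, max (u n x + t * (u n y - u n x) - 2 * ε) 0 ^ 2 ≤
      ∑ n ∈ I, (a n ^ 2 + 2 * t * (a n * (u n y - u n x)) + t ^ 2 * (u n y - u n x) ^ 2) := by
    refine sum_le_sum fun n _ => ?_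
    have e : a n ^ 2 + 2 * t * (a n * (u n y - u n x)) + t ^ 2 * (u n y - u n x) ^ 2 =
      (a n + t * (u n y - u n x)) ^ 2 := by ring
    rw [e]
    rcases le_total (u n x + t * (u n y - u n x) - 2 * ε) 0 with h' | h'
    · rw [max_eq_right h']; simpa using sq_nonneg _
    · rw [max_eq_left h']
      exact pow_le_pow_left₀ h' (by linarith [le_max_left (u n x - 2 * ε) 0]) 2
  simp only [sum_add_distrib, ← mul_sum] at h3
  have h4 : 0 ≤ t * (2 * ∑ n ∈ I, a n * (u n y - u n x) + t * Q) := by nlinarith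
  have h5 := nonneg_of_mul_nonneg_right h4 ht0
  nlinarith [mul_pos hε hA]

lemma exists_rank {α : Type} (G : Finset α) (v : α → ℝ) (hv : ∀ a, 0 ≤ v a) {c : ℕ} (hc : 0 < c)
    (z : ℕ) : ∃ p : α → ℕ, Set.InjOn p G ∧ ∀ L ⊆ G,
      (∀ s, (L.filter fun a => p a / c = s).card ≤ z) →
      c * ∑ a ∈ L.filter (c ≤ p ·), v a ≤ z * ∑ a ∈ G, v a := by
  set n := G.card
  let e : Fin n ≃ G := (Tuple.sort fun i => -v (G.equivFin.symm i)).trans G.equivFin.symm
  have he : ∀ i j, i ≤ j → v (e j) ≤ v (e i) := fun i j hij =>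
    neg_le_neg_iff.1 (Tuple.monotone_sort (fun i => -v (G.equivFin.symm i)) hij)
  let p : α → ℕ := fun a => if h : a ∈ G then e.symm ⟨a, h⟩ else 0
  let φ : ℕ → ℝ := fun i => if h : i < n then v (e ⟨i, h⟩) else 0
  have hφ0 : ∀ i, 0 ≤ φ i := fun i => by simp only [φ]; split_ifs; exacts [hv _, le_rfl]
  have hp : ∀ a ∈ G, p a < n := fun a ha => by simp only [p, dif_pos ha]; exact Fin.is_lt _
  have hφp : ∀ a ∈ G, φ (p a) = v a := fun a ha => by simp [φ, p, dif_pos ha]
  have hφ : ∀ i j, i ≤ j → j < n → φ j ≤ φ i := fun i j hij hj => by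
    simp only [φ, dif_pos hj, dif_pos (hij.trans_lt hj)]
    exact he _ _ hij
  have hsum : ∀ m, ∑ i ∈ range m, φ i ≤ ∑ a ∈ G, v a := by
    intro m
    have e1 : ∑ a ∈ G, v a = ∑ i ∈ range n, φ i := by
      rw [← sum_coe_sort G, ← e.sum_comp, ← Fin.sum_univ_eq_sum_range]
      exact sum_congr rfl fun i _ => by simp [φ]
    rw [e1, ← sum_filter_ne_zero]
    refine sum_le_sum_of_subset_of_nonneg (fun i hi => ?_) fun i _ _ => hφ0 i
    by_contra h
    exact (mem_filter.1 hi).2 (dif_neg (by simpa using h))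
  refine ⟨p, fun a ha b hb hab => ?_, fun L hL hz => ?_⟩
  · simp only [p, dif_pos (mem_coe.1 ha), dif_pos (mem_coe.1 hb)] at hab
    exact congrArg Subtype.val (e.symm.injective (Fin.ext hab))
  set Φ : ℕ → ℝ := fun r => ∑ i ∈ range c, φ (r * c + i)
  have hΦ0 : ∀ r, 0 ≤ Φ r := fun r => sum_nonneg fun _ _ => hφ0 _
  have h1 : ∀ a ∈ L.filter (c ≤ p ·), c * v a ≤ Φ (p a / c - 1) := by
    intro a ha
    obtain ⟨h1, h2⟩ := mem_filter.1 ha
    rw [← hφp a (hL h1)]
    refine le_trans (by simp) (card_nsmul_le_sum (range c) _ (φ (p a)) fun i hi => ?_)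
    refine hφ _ _ ?_ (hp a (hL h1))
    have h3 : 1 ≤ p a / c := (Nat.le_div_iff_mul_le hc).2 (by omega)
    have h4 := Nat.div_mul_le_self (p a) c
    obtain ⟨s, hs⟩ := Nat.exists_eq_add_of_le' h3
    have := mem_range.1 hi
    rw [hs] at h4 ⊢
    simp only [Nat.add_sub_cancel]
    nlinarith
  have h2 : ∑ r ∈ range n, Φ r = ∑ i ∈ range (n * c), φ i := by
    generalize n = m
    induction m with
    | zero => simp
    | succ m ih => rw [sum_range_succ, ih, Nat.succ_mul, sum_range_add]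
  rw [mul_sum]
  refine (sum_le_sum h1).trans (le_trans ?_ (mul_le_mul_of_nonneg_left (h2.le.trans (hsum _))
    (Nat.cast_nonneg z)))
  rw [← sum_fiberwise_of_maps_to (t := range n) (g := fun a => p a / c - 1) fun a ha =>
    mem_range.2 (((Nat.sub_le _ _).trans (Nat.div_le_self _ _)).trans_lt
      (hp a (hL (mem_filter.1 ha).1))), mul_sum]
  refine sum_le_sum fun r _ => ?_
  rw [sum_congr rfl (g := fun _ => Φ r) fun a ha => by rw [(mem_filter.1 ha).2], sum_const,
    nsmul_eq_mul]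
  refine mul_le_mul_of_nonneg_right ?_ (hΦ0 r)
  refine Nat.cast_le.2 ((card_le_card fun a ha => ?_).trans (hz (r + 1)))
  simp only [mem_filter] at ha ⊢
  have h3 : 1 ≤ p a / c := (Nat.le_div_iff_mul_le hc).2 (by omega)
  exact ⟨ha.1.1, by omega⟩

lemma card_low {α : Type} (L : Finset α) (r : α → α → Prop) (d : ℕ)
    (ht : ∀ a ∈ L, ∀ b ∈ L, a ≠ b → r a b ∨ r b a)
    (hd : ∀ b ∈ L, (L.filter (r · b)).card ≤ d) : L.card ≤ 2 * d + 1 := by
  set R := (L ×ˢ L).filter fun e => r e.1 e.2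
  have h1 : R.card ≤ d * L.card := by
    refine card_le_mul_card_image_of_maps_to (f := Prod.snd)
      (fun e he => (mem_product.1 (mem_filter.1 he).1).2) d fun b hb => ?_
    refine (card_le_card_of_injOn Prod.fst (fun e he => ?_) fun e he e' he' h => ?_).trans (hd b hb)
    · simp only [coe_filter, mem_filter, mem_product, Set.mem_ofPred_eq] at he ⊢
      exact ⟨he.1.1.1, he.2 ▸ he.1.2⟩
    · exact Prod.ext h ((mem_filter.1 he).2.trans (mem_filter.1 he').2.symm)
  have h2 : L.offDiag ⊆ R ∪ R.image Prod.swap := by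
    intro e he
    obtain ⟨a, b, c⟩ := mem_offDiag.1 he
    rcases ht _ a _ b c with h | h
    · exact mem_union_left _ (mem_filter.2 ⟨mem_product.2 ⟨a, b⟩, h⟩)
    · exact mem_union_right _ (mem_image.2 ⟨e.swap, mem_filter.2 ⟨mem_product.2 ⟨b, a⟩, h⟩, rfl⟩)
  have h3 := (card_le_card h2).trans (card_union_le _ _)
  have h4 := card_image_le (s := R) (f := Prod.swap)
  rw [offDiag_card] at h3
  by_contra h
  have h5 : (2 * d + 2) * L.card ≤ L.card * L.card := Nat.mul_le_mul_right _ (by omega)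
  have h6 : L.card * L.card ≤ 2 * (d * L.card) + L.card := by omega
  nlinarith

lemma exists_parts (P : Finset ℕ) {c u : ℕ} (h : c * u ≤ P.card) :
    ∃ pt : ℕ → Finset ℕ, (∀ i, pt i ⊆ P) ∧ (∀ i < c, (pt i).card = u) ∧
      ∀ i i' x, x ∈ pt i → x ∈ pt i' → i = i' := by
  obtain ⟨f⟩ := Function.Embedding.nonempty_of_card_le (α := Fin c × Fin u) (β := P)
    (by simpa using h)
  refine ⟨fun i => if h : i < c then univ.image fun y => (f (⟨i, h⟩, y)).1 else ∅, fun i => ?_,
    fun i hi => ?_, fun i i' x => ?_⟩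
  · beta_reduce
    split_ifs
    · exact image_subset_iff.2 fun y _ => (f _).2
    · exact empty_subset _
  · simp only [dif_pos hi]
    rw [card_image_of_injective _ fun y y' e => (Prod.mk.inj (f.injective (Subtype.ext e))).2]
    simp
  · beta_reduce
    split_ifs
    · simp only [mem_image, mem_univ, true_and]
      rintro ⟨y, rfl⟩ ⟨y', e⟩
      exact (congrArg Fin.val (Prod.mk.inj (f.injective (Subtype.ext e))).1).symm
    all_goals simp

lemma exists_index {α : Type} (W : Finset α) :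
    ∃ f : α → ℕ, Set.InjOn f W ∧ ∀ a ∈ W, f a < W.card := by
  refine ⟨fun a => if h : a ∈ W then W.equivFin ⟨a, h⟩ else 0, fun a ha b hb hab => ?_,
    fun a ha => ?_⟩
  · simp only [dif_pos (mem_coe.1 ha), dif_pos (mem_coe.1 hb)] at hab
    exact congrArg Subtype.val (W.equivFin.injective (Fin.ext hab))
  · simp only [dif_pos ha]; exact Fin.is_lt _

/-- Sorting the natural numbers by a function with finite sublevel sets. -/
lemma exists_sort (D : ℕ → ℕ) (hD : ∀ x, {y | D y ≤ D x}.Finite) :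
    ∃ φ : ℕ ≃ ℕ, ∀ x y, φ y ≤ φ x → D y ≤ D x := by
  let r : ℕ → ℕ → Prop := fun y x => D y < D x ∨ (D y = D x ∧ y < x)
  have hf : ∀ x, {y | r y x}.Finite := fun x => (hD x).subset fun y hy => by
    simp only [r, Set.mem_ofPred_eq] at hy ⊢; omega
  let κ : ℕ → ℕ := fun x => {y | r y x}.ncard
  have hκ : ∀ x y, r y x → κ y < κ x := fun x y h =>
    Set.ncard_lt_ncard ⟨fun z hz => by simp only [r, Set.mem_ofPred_eq] at hz h ⊢; omega,
      fun h' => by
        have := h' h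
        simp only [r, Set.mem_ofPred_eq] at this; omega⟩ (hf x)
  have hi : Injective κ := fun x y e => by
    by_contra h
    have : r x y ∨ r y x := by simp only [r]; omega
    rcases this with h' | h'
    · exact (hκ _ _ h').ne e
    · exact (hκ _ _ h').ne e.symm
  have := (Set.infinite_range_of_injective hi).to_subtype
  refine ⟨(Equiv.ofInjective κ hi).trans
    (Nat.Subtype.orderIsoOfNat (Set.range κ)).symm.toEquiv, fun x y h => ?_⟩
  have h1 : κ y ≤ κ x := (Nat.Subtype.orderIsoOfNat (Set.range κ)).symm.le_iff_le.1 h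
  by_contra h2
  exact (hκ y x (Or.inl (not_le.1 h2))).not_ge h1

end Pool.Agent.P.MP_f6e960_lc
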