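import Pool.Agent.P.MP_f6e960_lc.Near

/-!
Arrows from far pieces can be made negligible.
-/

namespace Pool.Agent.P.MP_f6e960_lc

open Finset Filter Topology Function
open scoped Classical

lemma exists_hall (X : Finset ℕ) (t : ℕ → Finset ℕ) (ht : ∀ x ∈ X, ∀ y ∈ t x, y ∉ X)
    (h : ∀ W ⊆ X, W.card ≤ (W.biUnion t).card) :
    ∃ g : ℕ → ℕ, Involutive g ∧ (∀ x ∈ X, g x ∈ t x) ∧ ∀ x ∉ X ∪ X.biUnion t, g x = x := by
  obtain ⟨f, hf1, hf2⟩ := (all_card_le_biUnion_card_iff_exists_injective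
    (fun x : X => t x)).1 fun W => by
      have := h (W.image Subtype.val) (image_subset_iff.2 fun x _ => x.2)
      rwa [card_image_of_injective _ Subtype.val_injective, image_biUnion] at this
  let Pt : ℕ × Bool → Finset ℕ := fun a => if h : a.1 ∈ X then
    {if a.2 then f ⟨a.1, h⟩ else a.1} else ∅
  have hP : ∀ x b y, y ∈ Pt (x, b) ↔ ∃ h : x ∈ X, y = if b then f ⟨x, h⟩ else x := by
    intro x b y
    by_cases h : x ∈ X <;> simp [Pt, h]
  obtain ⟨g, hg1, hg2, hg3⟩ := exists_invol Pt (fun a => (a.1, !a.2)) (fun a => by simp) (by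
    rintro ⟨x, b⟩ ⟨x', b'⟩ y h1 h2
    obtain ⟨a1, a2⟩ := (hP _ _ _).1 h1
    obtain ⟨b1, b2⟩ := (hP _ _ _).1 h2
    have c1 := ht x a1 _ (hf2 ⟨x, a1⟩)
    have c2 := ht x' b1 _ (hf2 ⟨x', b1⟩)
    cases b <;> cases b' <;> simp only [if_true, Bool.false_eq_true, if_false] at a2 b2
    · rw [← a2, b2]
    · exact (c2 (b2 ▸ a2 ▸ a1)).elim
    · exact (c1 (a2 ▸ b2 ▸ b1)).elim
    · rw [Subtype.mk.inj (hf1 (a2.symm.trans b2))])
    (fun a => by by_cases h : a.1 ∈ X <;> simp [Pt, h])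
  refine ⟨g, hg1, fun x hx => ?_, fun x hx => hg3 x fun a ha => hx ?_⟩
  · obtain ⟨_, h⟩ := (hP _ _ _).1 (hg2 (x, false) x ((hP _ _ _).2 ⟨hx, rfl⟩))
    rw [h]; exact hf2 ⟨x, hx⟩
  · obtain ⟨y, b⟩ := a
    obtain ⟨h, rfl⟩ := (hP _ _ _).1 ha
    cases b
    · exact mem_union_left _ h
    · exact mem_union_right _ (mem_biUnion.2 ⟨y, h, hf2 ⟨y, h⟩⟩)

lemma ev_pow {β : ℝ} (hβ : 0 < β) : ∀ᶠ k : ℕ in atTop, 4 * ((k : ℝ) + 1) / 2 ^ k ≤ β := by
  have h1 := tendsto_pow_const_div_const_pow_of_one_lt 1 (show (1 : ℝ) < 2 by norm_num)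
  have h2 := tendsto_pow_const_div_const_pow_of_one_lt 0 (show (1 : ℝ) < 2 by norm_num)
  have h3 := (h1.add h2).const_mul 4
  rw [add_zero, mul_zero] at h3
  exact (h3.eventually (ge_mem_nhds hβ)).mono fun k hk => le_of_eq_of_le (by ring) hk

namespace Sys

variable {ι : Type} {S : Sys ι} {l : ι → ℕ}

lemma exists_fin {n : ℕ} {V : Set ι} {ε : ℝ} (h : ε < S.nu n V) :
    ∃ H : Finset ι, (∀ P ∈ H, P ∈ V) ∧ ε ≤ S.nu n H :=
  ⟨(S.B n).filter (· ∈ V), fun _ h => (mem_filter.1 h).2, h.le.trans (nu_mono' fun _ h1 h2 =>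
    mem_coe.2 (mem_filter.2 ⟨(S.mem_B _ _).2 h1, h2⟩))⟩

namespace Lev

variable (hl : S.Lev l)
include hl

/-- Splitting a bounded family of pairs by a threshold. -/
lemma thresh {K : ℕ} {E : ι → ι → Prop} (hE : ∀ Q P, E Q P → S.Near l K Q P) {δ : ℝ}
    (hδ : 0 < δ) : ∃ U : ι → ι → Prop, (S.Inv fun P Q => E Q P ∧ ¬ U Q P) ∧
      ∀ m n, S.nu n {P | ∃ Q, S.bl Q = m ∧ E Q P ∧ U Q P} ≤ δ := by
  set A : ℕ → Finset (ι × ι) := fun m =>
    (S.B m ×ˢ (S.B m).biUnion (hl.nb K)).filter fun e => E e.1 e.2 with hAd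
  have hA : ∀ m e, e ∈ A m ↔ S.bl e.1 = m ∧ E e.1 e.2 := by
    intro m e
    simp only [hAd, mem_filter, mem_product, mem_biUnion, S.mem_B, hl.mem_nb]
    exact ⟨fun h => ⟨h.1.1, h.2⟩, fun h => ⟨⟨h.1, _, h.1, hE _ _ h.2⟩, h.2⟩⟩
  set π : ι → ℝ := fun P => S.w P * S.N P with hπ
  have hπ0 : ∀ P, 0 ≤ π P := pi_nonneg
  set q : ℕ → ℕ → ℝ := fun m n => ∑ e ∈ (A m).filter (S.bl ·.2 = n), π e.1 with hq
  have hq0 : ∀ m n, 0 ≤ q m n := fun m n => sum_nonneg fun e _ => hπ0 _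
  refine ⟨fun Q P => π P * q (S.bl Q) (S.bl P) < δ * π Q, fun V hV γ hγ => ?_, fun m n => ?_⟩
  · set Δ := (2 * K + 1) * (K + 1)
    have hΔ : (0 : ℝ) < Δ := by positivity
    obtain ⟨M, hM⟩ := eventually_atTop.1 (hV (δ * γ / Δ / Δ) (by positivity))
    obtain ⟨M', hM'⟩ := hl.escape K M
    filter_upwards [eventually_ge_atTop M'] with m hm
    set A' := (A m).filter fun e => e.2 ∈ V ∧ ¬ π e.2 * q m (S.bl e.2) < δ * π e.1
    have h1 : S.nu m {Q | ∃ P ∈ V, E Q P ∧ ¬ π P * q (S.bl Q) (S.bl P) < δ * π Q} ≤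
        ∑ e ∈ A', π e.1 := by
      rw [nu_eq']
      refine le_trans (sum_le_sum_of_subset_of_nonneg (fun Q hQ => ?_) fun Q _ _ => hπ0 Q)
        (sum_image_le_of_nonneg (g := Prod.fst) fun Q _ => hπ0 Q)
      obtain ⟨h1, P, h2, h3, h4⟩ := mem_filter.1 hQ
      rw [S.mem_B] at h1
      exact mem_image.2 ⟨(Q, P), mem_filter.2 ⟨(hA _ _).2 ⟨h1, h3⟩, h2, h1 ▸ h4⟩, rfl⟩
    have h2 : δ * ∑ e ∈ A', π e.1 ≤ ∑ e ∈ A', π e.2 * q m (S.bl e.2) := by
      rw [mul_sum]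
      exact sum_le_sum fun e he => not_lt.1 (mem_filter.1 he).2.2
    have hm1 : ∀ e ∈ A m, S.bl e.2 ∈ (A m).image (S.bl ·.2) := fun e he => mem_image_of_mem _ he
    have h3 : ∑ e ∈ A', π e.2 * q m (S.bl e.2) ≤
        ∑ n ∈ (A m).image (S.bl ·.2), q m n * (δ * γ / Δ) := by
      rw [← sum_fiberwise_of_maps_to fun e he => hm1 e (mem_filter.1 he).1]
      refine sum_le_sum fun n hn => ?_
      rw [sum_congr rfl (g := fun e => q m n * π e.2) fun e he => by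
        rw [(mem_filter.1 he).2, mul_comm], ← mul_sum]
      refine mul_le_mul_of_nonneg_left ?_ (hq0 m n)
      refine (sum_fib_le _ Prod.snd ((S.B n).filter (· ∈ V)) (fun e he => mem_filter.2
        ⟨(S.mem_B _ _).2 (mem_filter.1 he).2, (mem_filter.1 (mem_filter.1 he).1).2.1⟩)
        (Δ := Δ) (fun P => ?_) hπ0).trans ?_
      · refine (card_le_card_of_injOn Prod.fst (fun e he => ?_) fun e he e' he' h =>
          Prod.ext h ((mem_filter.1 he).2.trans (mem_filter.1 he').2.symm)).trans (hl.card_nb K P)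
        obtain ⟨a1, a2⟩ := mem_filter.1 he
        exact hl.mem_nb.2 (a2 ▸ (hE _ _ ((hA _ _).1 (mem_filter.1 (mem_filter.1 a1).1).1).2).symm)
      · obtain ⟨e, he, rfl⟩ := mem_image.1 hn
        have := hM _ (hM' _ _ (hE _ _ ((hA _ _).1 he).2) (((hA _ _).1 he).1 ▸ hm))
        rw [le_div_iff₀' hΔ] at this
        rw [← nu_eq']
        exact this
    have h4 : ∑ n ∈ (A m).image (S.bl ·.2), q m n ≤ Δ := by
      rw [sum_fiberwise_of_maps_to hm1]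
      refine (sum_fib_le _ Prod.fst (S.B m) (fun e he => (S.mem_B _ _).2 ((hA _ _).1 he).1)
        (Δ := Δ) (fun Q => ?_) hπ0).trans (mul_le_of_le_one_right hΔ.le (mass' m))
      refine (card_le_card_of_injOn Prod.snd (fun e he => ?_) fun e he e' he' h =>
        Prod.ext ((mem_filter.1 he).2.trans (mem_filter.1 he').2.symm) h).trans (hl.card_nb K Q)
      obtain ⟨a1, a2⟩ := mem_filter.1 he
      exact hl.mem_nb.2 (a2 ▸ hE _ _ ((hA _ _).1 a1).2)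
    rw [← sum_mul] at h3
    have h5 := mul_le_mul_of_nonneg_right h4 (show 0 ≤ δ * γ / Δ by positivity)
    rw [mul_div_cancel₀ _ hΔ.ne'] at h5
    exact h1.trans (le_of_mul_le_mul_left (h2.trans (h3.trans h5)) hδ)
  · set A' := ((A m).filter (S.bl ·.2 = n)).filter fun e => π e.2 * q m n < δ * π e.1
    have h1 : S.nu n {P | ∃ Q, S.bl Q = m ∧ E Q P ∧ π P * q (S.bl Q) (S.bl P) < δ * π Q} ≤
        ∑ e ∈ A', π e.2 := by
      rw [nu_eq']
      refine le_trans (sum_le_sum_of_subset_of_nonneg (fun P hP => ?_) fun Q _ _ => hπ0 Q)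
        (sum_image_le_of_nonneg (g := Prod.snd) fun Q _ => hπ0 Q)
      obtain ⟨h1, Q, h2, h3, h4⟩ := mem_filter.1 hP
      rw [S.mem_B] at h1
      exact mem_image.2 ⟨(Q, P), mem_filter.2 ⟨mem_filter.2 ⟨(hA _ _).2 ⟨h2, h3⟩, h1⟩,
        h1 ▸ h2 ▸ h4⟩, rfl⟩
    refine h1.trans ?_
    have h2 : ∑ e ∈ A', π e.1 ≤ q m n :=
      sum_le_sum_of_subset_of_nonneg (filter_subset _ _) fun e _ _ => hπ0 _
    rcases A'.eq_empty_or_nonempty with h | h
    · rw [h, sum_empty]; exact hδ.le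
    have h3 : ∑ e ∈ A', π e.2 * q m n < ∑ e ∈ A', δ * π e.1 :=
      sum_lt_sum_of_nonempty h fun e he => (mem_filter.1 he).2
    rw [← sum_mul, ← mul_sum] at h3
    exact (lt_of_mul_lt_mul_right (h3.trans_le (mul_le_mul_of_nonneg_left h2 hδ.le)) (hq0 m n)).le

/-- Matching a fixed fraction of overloaded pieces into their sources. -/
lemma match_heads {i k K e' n : ℕ} {ε : ℝ} (he : 16 * ((i : ℝ) + 1) ≤ ε * e') (he2 : 2 ≤ e')
    {U : ι → ι → Prop} {H : Finset ι}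
    (hH : ∀ P ∈ H, l P ≤ i ∧ e' ≤ S.sc P ∧
      ε / 2 * S.N P ≤ ∑ Q ∈ (hl.nb K P).filter (U · P), S.N Q)
    (hU : ∀ Q P, U Q P → k < l Q ∨ S.sc P + k < S.sc Q) :
    ∃ (g : ℕ → ℕ) (X Z : Finset ℕ), Involutive g ∧ X ⊆ Z ∧ (∀ x ∉ Z, g x = x) ∧
      (∀ x ∈ Z, ∃ P ∈ H, S.pc x = P ∨ S.Near l K P (S.pc x)) ∧
      (∀ x ∈ X, S.Near l K (S.pc x) (S.pc (g x)) ∧ U (S.pc (g x)) (S.pc x)) ∧
      1 / (2 * (e' : ℝ)) * S.nu n H ≤ S.mu n X ∧
      ∀ m, S.mu m (g ⁻¹' X) ≤ S.nu m {Q | k < l Q} + 4 * (i + 1) / 2 ^ k := by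
  have heR : (2 : ℝ) ≤ e' := by exact_mod_cast he2
  choose sub hs1 hs2 using fun P : ι =>
    exists_subset_card_eq (s := S.F P) (Nat.div_le_self _ e')
  set X := H.biUnion sub
  have hX : ∀ x ∈ X, S.pc x ∈ H ∧ x ∈ sub (S.pc x) := fun x hx => by
    obtain ⟨P, h1, h2⟩ := mem_biUnion.1 hx
    rw [(S.mem_F _ _).1 (hs1 P h2)]
    exact ⟨h1, h2⟩
  have hc : ∀ P, e' * S.cnt X P ≤ S.N P := fun P => by
    have : ((S.F P).filter (· ∈ (X : Set ℕ))).card ≤ (sub P).card := card_le_card fun x hx => by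
      have := (hX x (mem_filter.1 hx).2).2
      rwa [(S.mem_F _ _).1 (mem_filter.1 hx).1] at this
    rw [cnt_eq, N]
    exact_mod_cast (Nat.mul_le_mul_left e' (this.trans (hs2 P).le)).trans (Nat.mul_div_le _ _)
  set t : ℕ → Finset ℕ := fun x =>
    (((hl.nb K (S.pc x)).filter (U · (S.pc x))).biUnion S.F).filter (· ∉ X) with ht
  have hmt : ∀ x y, y ∈ t x ↔
      (S.Near l K (S.pc x) (S.pc y) ∧ U (S.pc y) (S.pc x)) ∧ y ∉ X := fun x y => by
    simp [ht, S.mem_F, hl.mem_nb]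
  obtain ⟨g, hg1, hg2, hg3⟩ := exists_hall X t (fun x _ y hy => ((hmt _ _).1 hy).2) fun W hW => by
    rcases W.eq_empty_or_nonempty with rfl | hne
    · simp
    obtain ⟨x, hx, hmax⟩ := exists_max_image W (fun x => S.sc (S.pc x)) hne
    refine le_trans ?_ (card_le_card (subset_biUnion_of_mem t hx))
    set P := S.pc x
    have hP := hH P (hX x (hW hx)).1
    have h1 := card_le_sum_cnt (S := S) (W := W) (X := X) (A := H.filter (S.sc · ≤ S.sc P))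
      injective_id fun y hy => ⟨hW hy, mem_filter.2 ⟨(hX y (hW hy)).1, hmax y hy⟩⟩
    have h2 := hl.sum_N_small (A := H.filter (S.sc · ≤ S.sc P)) (i := i) (k := 0) (P := P)
      fun Q hQ => ⟨(hH Q (mem_filter.1 hQ).1).1, (mem_filter.1 hQ).2⟩
    have h3 : e' * ∑ Q ∈ H.filter (S.sc · ≤ S.sc P), S.cnt X Q ≤
        ∑ Q ∈ H.filter (S.sc · ≤ S.sc P), S.N Q := by
      rw [mul_sum]; exact sum_le_sum fun Q _ => hc Q
    have h4 := sum_cnt_le_card (S := S) (W := t x) (X := (X : Set ℕ)ᶜ)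
      (A := (hl.nb K P).filter (U · P)) fun y h1 h2 => (hmt _ _).2
        ⟨⟨hl.mem_nb.1 (mem_filter.1 h2).1, (mem_filter.1 h2).2⟩, h1⟩
    have h5 : ∑ Q ∈ (hl.nb K P).filter (U · P), S.N Q ≤
        2 * ∑ Q ∈ (hl.nb K P).filter (U · P), S.cnt (X : Set ℕ)ᶜ Q := by
      rw [mul_sum]
      refine sum_le_sum fun Q _ => ?_
      have a1 : S.cnt X Q + S.cnt (X : Set ℕ)ᶜ Q = S.N Q := by
        rw [cnt_eq, cnt_eq, N]
        exact_mod_cast card_filter_add_card_filter_not (s := S.F Q) (· ∈ (X : Set ℕ))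
      nlinarith [hc Q, cnt_nonneg (S := S) X Q]
    have h6 := N_pos (S := S) P
    have h7 : (e' : ℝ) * W.card ≤ e' * (t x).card := by
      have a1 := mul_le_mul_of_nonneg_left h1 (show (0 : ℝ) ≤ e' by positivity)
      have a2 : ε / 4 * S.N P ≤ (t x).card := by linarith [hP.2.2]
      have a3 := mul_le_mul_of_nonneg_left a2 (show (0 : ℝ) ≤ e' by positivity)
      have a4 := mul_le_mul_of_nonneg_right he h6.le
      rw [pow_zero, div_one] at h2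
      nlinarith
    exact_mod_cast le_of_mul_le_mul_left h7 (by linarith)
  refine ⟨g, X, X ∪ X.biUnion t, hg1, subset_union_left, hg3, fun x hx => ?_,
    fun x hx => ((hmt _ _).1 (hg2 x hx)).1, le_mu_of_cnt fun P _ hP => ?_, fun m => ?_⟩
  · rcases mem_union.1 hx with h | h
    · exact ⟨_, (hX x h).1, Or.inl rfl⟩
    · obtain ⟨y, h1, h2⟩ := mem_biUnion.1 h
      exact ⟨_, (hX y h1).1, Or.inr ((hmt _ _).1 h2).1.1⟩
  · have h1 : (S.F P).card / e' ≤ ((S.F P).filter (· ∈ (X : Set ℕ))).card :=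
      (hs2 P).ge.trans (card_le_card fun x hx =>
        mem_filter.2 ⟨hs1 P hx, mem_coe.2 (mem_biUnion.2 ⟨P, hP, hx⟩)⟩)
    have h2 : e' ≤ (S.F P).card :=
      ((hH P hP).2.1.trans Nat.lt_two_pow_self.le).trans (pow_le_card P)
    have h3 := Nat.lt_mul_div_succ (S.F P).card (show 0 < e' by omega)
    have h4 : 1 ≤ (S.F P).card / e' := (Nat.le_div_iff_mul_le (by omega)).2 (by omega)
    have h5 : (S.F P).card ≤ 2 * e' * ((S.F P).filter (· ∈ (X : Set ℕ))).card := by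
      nlinarith [Nat.mul_le_mul_left e' h1, Nat.mul_le_mul_left e' h4]
    rw [one_div, inv_mul_eq_div, div_le_iff₀ (by positivity), cnt_eq, N, mul_comm]
    exact_mod_cast h5
  · refine mu_le_of_cnt (by positivity) fun Q _ hQ => ?_
    refine le_trans ?_ (hl.sum_N_small (A := H.filter (S.sc · + k ≤ S.sc Q)) (i := i)
      fun P hP => ⟨(hH P (mem_filter.1 hP).1).1, (mem_filter.1 hP).2⟩)
    refine le_trans ?_ (sum_le_sum fun P _ => cnt_le_N (S := S) X P)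
    rw [cnt_eq]
    refine card_le_sum_cnt hg1.injective fun y hy => ?_
    obtain ⟨h1, h2⟩ := mem_filter.1 hy
    have h3 := hU _ _ ((hmt _ _).1 (hg2 _ h2)).1.2
    rw [hg1 y, (S.mem_F _ _).1 h1] at h3
    exact ⟨h2, mem_filter.2 ⟨(hX _ h2).1, (h3.resolve_left hQ).le⟩⟩

lemma demote (h : S.Split) (i : ℕ) {ε : ℝ} (hε : 0 < ε) : ∃ k, i ≤ k ∧ ∀ K, ∃ T : ι → ι → Prop,
    S.Inv T ∧ (∀ P Q, S.Near l K P Q → T P Q ∨ T Q P) ∧
    (∀ P Q, T Q P → l P ≤ i → S.Near l K P Q → ¬ S.Near l k P Q → i ≤ S.bl P ∨ i ≤ S.sc P) ∧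
    ∀ n, S.nu n {P | l P ≤ i ∧ ε * S.N P <
      ∑ Q ∈ (hl.nb K P).filter fun Q => ¬ S.Near l k P Q ∧ T Q P, S.N Q} ≤ ε := by
  by_contra H
  simp only [not_exists, not_and, not_forall, not_le] at H
  have hk : ∀ s : ℕ, ∃ k, i ≤ k ∧ 4 * ((k : ℝ) + 1) / 2 ^ k ≤ min (ε / 2) (1 / (s + 1) / 2) ∧
      ∀ᶠ n in atTop, S.nu n {P | k < l P} ≤ 1 / (s + 1) / 2 := by
    intro s
    obtain ⟨i0, h0⟩ := hl.2 (1 / (s + 1) / 2) (by positivity)
    obtain ⟨k, h1, h2, h3⟩ := ((eventually_ge_atTop i).and ((ev_pow (β := min (ε / 2)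
      (1 / (s + 1) / 2)) (by positivity)).and (eventually_ge_atTop i0))).exists
    exact ⟨k, h1, h2, h0.mono fun n hn => (nu_mono' fun P _ hP => h3.trans_lt hP).trans hn⟩
  choose k hk1 hk2 hk3 using hk
  choose K hK using fun s => H (k s) (hk1 s)
  choose O hO1 hO2 using fun s => hl.base h (K s)
  obtain ⟨e', he'⟩ := ((tendsto_natCast_atTop_atTop (R := ℝ)).eventually_ge_atTop
    (16 * ((i : ℝ) + 1) / ε) |>.and (eventually_ge_atTop 2)).exists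
  have heR : (2 : ℝ) ≤ e' := by exact_mod_cast he'.2
  refine h.two (ε := 1 / (2 * (e' : ℝ)) * ε) (by positivity)
    (fun s x y => S.Near l (K s) (S.pc x) (S.pc y) ∧ O s (S.pc y) (S.pc x))
    (fun s G X hG hX hs γ hγ => ?_) fun s t M => ?_
  · refine (hl.transfer (hO1 s) (K s) hs (V := ∅) (γ := 0) (η := 0) le_rfl
      (by simp [nu, mu_empty]) (fun P _ => ?_) hγ).mono fun n hn => by simpa using hn
    rw [zero_mul, zero_add, cnt_eq]
    refine card_le_sum_cnt hG.injective fun x hx => ?_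
    obtain ⟨h1, h2⟩ := mem_filter.1 hx
    have h3 := hX x h2
    rw [(S.mem_F _ _).1 h1] at h3
    exact ⟨by rwa [Set.mem_preimage, hG x], mem_filter.2 ⟨hl.mem_nb.2 h3.1, h3.2⟩⟩
  obtain ⟨M0, hM0⟩ := eventually_atTop.1 (hk3 s)
  obtain ⟨M1, hM1⟩ := hl.escape (K s) (max M M0)
  obtain ⟨M2, hM2⟩ := hl.big_sc i e'
  set M3 := max (max M M1) (max M2 i)
  obtain ⟨E, hE⟩ : ∃ E : ι → ι → Prop, ∀ Q P, E Q P ↔ l P ≤ i ∧ S.Near l (K s) P Q ∧
    (k s < l Q ∨ S.sc P + k s < S.sc Q) := ⟨_, fun _ _ => Iff.rfl⟩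
  obtain ⟨U0, hU1, hU2⟩ := hl.thresh (K := K s) (E := fun Q P => E Q P ∧ O s Q P)
    (fun Q P h => ((hE _ _).1 h.1).2.1.symm) (δ := 1 / ((t : ℝ) + 1)) (by positivity)
  obtain ⟨U, hU⟩ : ∃ U : ι → ι → Prop, ∀ Q P, U Q P ↔ (E Q P ∧ O s Q P) ∧ U0 Q P ∧
    M3 ≤ S.bl P := ⟨_, fun _ _ => Iff.rfl⟩
  have hk4 := hk1 s
  have hnE : ∀ P Q, l P ≤ i → S.Near l (K s) P Q → ¬ S.Near l (k s) P Q → ¬ E Q P →
      l Q ≤ k s ∧ S.sc Q + k s ≤ S.sc P := fun P Q h1 h2 h3 h4 => by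
    rw [hE] at h4
    unfold Near at h2 h3 h4; omega
  obtain ⟨n, hn⟩ := hK s (fun Q P => U Q P ∨ (¬ E Q P ∧ (O s Q P ∨ (E P Q ∧ O s P Q ∧ ¬ U P Q))))
    ((((hO1 s).or hU1).or (inv_of_finite (O := fun P Q => S.bl P < M3 ∧ S.Near l (K s) P Q)
      ((hl.finite_near' (K s) M3).subset fun _ h => h))).mono (by
        rintro P Q (h | ⟨-, h | ⟨h1, h2, h3⟩⟩)
        · exact Or.inl (Or.inl ((hU _ _).1 h).1.2)
        · exact Or.inl (Or.inl h)
        · by_cases h4 : U0 Q P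
          · exact Or.inr ⟨not_le.1 fun h5 => h3 ((hU _ _).2 ⟨⟨h1, h2⟩, h4, h5⟩),
              ((hE _ _).1 h1).2.1⟩
          · exact Or.inl (Or.inr ⟨⟨h1, h2⟩, h4⟩)))
    (fun P Q hPQ => by
      have a1 := hO2 s P Q hPQ
      have a2 : ¬ (E P Q ∧ E Q P) := by rw [hE, hE]; omega
      have a3 := hU P Q
      have a4 := hU Q P
      tauto)
    (by
      rintro P Q (h | ⟨h, -⟩) h1 h2 h3
      · exact Or.inl (((le_max_right _ _).trans (le_max_right _ _)).trans ((hU _ _).1 h).2.2)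
      · have := hnE P Q h1 h2 h3 h
        omega)
  obtain ⟨H0, hH0, hH1⟩ := exists_fin hn
  have hH : ∀ P ∈ H0, l P ≤ i ∧ M3 ≤ S.bl P ∧
      ε / 2 * S.N P ≤ ∑ Q ∈ (hl.nb (K s) P).filter (U · P), S.N Q := by
    intro P hP
    obtain ⟨h1, h2⟩ := hH0 P hP
    have h3 := hl.sum_N_small (A := (hl.nb (K s) P).filter fun Q => ¬ S.Near l (k s) P Q ∧ ¬ E Q P)
      (i := k s) (k := k s) (P := P) fun Q hQ => hnE P Q h1 (hl.mem_nb.1 (mem_filter.1 hQ).1)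
        (mem_filter.1 hQ).2.1 (mem_filter.1 hQ).2.2
    have h4 := mul_le_mul_of_nonneg_right ((hk2 s).trans (min_le_left _ _)) (N_pos (S := S) P).le
    have h5 : ε / 2 * S.N P < ∑ Q ∈ (hl.nb (K s) P).filter (U · P), S.N Q := by
      refine lt_of_add_lt_add_right (lt_of_le_of_lt ?_ (h2.trans_le (le_trans ?_
        (add_le_add le_rfl (h3.trans h4)))))
      · linarith
      rw [sum_filter, sum_filter, sum_filter, ← sum_add_distrib]
      refine sum_le_sum fun Q _ => ?_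
      have := (N_pos (S := S) Q).le
      split_ifs <;> first | linarith | tauto
    refine ⟨h1, ?_, h5.le⟩
    obtain ⟨Q, hQ⟩ : ((hl.nb (K s) P).filter (U · P)).Nonempty := by
      by_contra h'
      rw [not_nonempty_iff_eq_empty.1 h', sum_empty] at h5
      exact h5.not_ge (mul_nonneg (by linarith) (N_pos P).le)
    exact ((hU _ _).1 (mem_filter.1 hQ).2).2.2
  obtain ⟨g, X, Z, hg, hXZ, hZ1, hZ2, hX1, hX2, hX3⟩ := hl.match_heads (n := n) (k := k s)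
    (ε := ε) (by rw [mul_comm ε, ← div_le_iff₀ hε]; exact he'.1) he'.2 (H := H0)
    (fun P hP => ⟨(hH P hP).1, hM2 P (hH P hP).1 (by have := (hH P hP).2.1; omega),
      (hH P hP).2.2⟩) fun Q P h => ((hE _ _).1 ((hU _ _).1 h).1.1).2.2
  have hfar : S.Far M g Z := ⟨hg, hZ1, fun x hx => by
    obtain ⟨P, h1, h2 | h2⟩ := hZ2 x hx
    · have := (hH P h1).2.1
      rw [b, h2]; omega
    · exact (le_max_left _ _).trans (hM1 P _ h2 (by have := (hH P h1).2.1; omega))⟩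
  refine ⟨g, Z, hfar, X, coe_subset.2 hXZ, fun x hx => ⟨(hX1 x hx).1,
    ((hU _ _).1 (hX1 x hx).2).1.2⟩, ⟨n, le_trans (mul_le_mul_of_nonneg_left
      hH1 (by positivity)) hX2⟩, fun m => ?_, fun m n' => ?_⟩
  · by_cases hm : M0 ≤ m
    · have h1 : 4 * ((i : ℝ) + 1) / 2 ^ k s ≤ 4 * (k s + 1) / 2 ^ k s := by gcongr
      linarith [hX3 m, hM0 m hm, (hk2 s).trans (min_le_right _ _)]
    · rw [mu_eq_zero fun y hy e => ?_]
      · positivity
      have h1 := (hX1 _ hy).1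
      rw [hg y] at h1
      have := hM1 _ _ h1 (((le_max_right _ _).trans (le_max_left _ _)).trans
        ((hU _ _).1 (hX1 _ hy).2).2.2)
      rw [b] at e; omega
  · refine le_trans (mu_mono fun x hx => ?_) (hU2 m n')
    have := (hU _ _).1 (hX1 x hx.1).2
    exact ⟨_, hx.2, this.1, this.2.1⟩

end Lev

end Sys

end Pool.Agent.P.MP_f6e960_lc
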