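import Pool.Agent.P.MP_f6e960_lc.Order

/-!
Density ideals and ideals of weighted density zero as systems of pieces.
-/

namespace Pool.Agent.P.MP_f6e960_lc

open Finset Filter Topology Function
open scoped Classical

/-- Dyadic rounding. -/
noncomputable def rd (r : ℝ) : ℝ := if 0 < r then (2 : ℝ) ^ Int.log 2 r else 0

lemma rd_nonneg (r : ℝ) : 0 ≤ rd r := by unfold rd; split_ifs <;> positivity

lemma rd_le {r : ℝ} (h : 0 ≤ r) : rd r ≤ r := by
  unfold rd; split_ifs with h'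
  · exact_mod_cast Int.zpow_log_le_self (b := 2) (by norm_num) h'
  · exact h

lemma le_rd (r : ℝ) : r ≤ 2 * rd r := by
  unfold rd; split_ifs with h'
  · have := (Int.lt_zpow_succ_log_self (b := 2) (by norm_num) r).le
    rw [zpow_add_one₀ (by norm_num)] at this
    push_cast at this
    linarith
  · linarith

lemma rd_gap {r s : ℝ} (h : rd r < rd s) : 2 * rd r ≤ rd s := by
  unfold rd at h ⊢
  split_ifs at h ⊢
  · rw [zpow_lt_zpow_iff_right₀ (by norm_num)] at h
    rw [mul_comm, ← zpow_add_one₀ (by norm_num)]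
    exact zpow_le_zpow_right₀ (by norm_num) h
  · exact absurd h (not_lt.2 (by positivity))
  · rw [mul_zero]; positivity
  · simp

lemma exists_sys (b : ℕ → ℕ) (D : ℕ → Finset ℕ) (hD : ∀ x n, x ∈ D n ↔ b x = n) (w : ℕ → ℝ)
    (h0 : ∀ x, 0 ≤ w x) (h1 : ∀ n, ∑ x ∈ D n, w x ≤ 1) (h2 : Tendsto w atTop (𝓝 0)) :
    ∃ (ι : Type) (S : Sys ι), ∀ X, S.Small X ↔
      ∀ γ : ℝ, 0 < γ → ∀ᶠ n in atTop, ∑ x ∈ D n, X.indicator w x ≤ γ := by
  let p0 : ℕ → ℕ × ℝ := fun x => (b x, rd (w x))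
  let pc : ℕ → Set.range p0 := fun x => ⟨p0 x, x, rfl⟩
  have hF : ∀ x (P : Set.range p0), x ∈ (D P.1.1).filter (pc · = P) ↔ pc x = P := fun x P => by
    rw [mem_filter, hD]
    exact ⟨fun h => h.2, fun h => ⟨h ▸ rfl, h⟩⟩
  have hs : ∀ P, ∃ x, pc x = P := fun ⟨_, x, hx⟩ => ⟨x, Subtype.ext hx⟩
  have hB : ∀ (P : Set.range p0) n, P ∈ (D n).image pc ↔ P.1.1 = n := fun P n => by
    obtain ⟨x, rfl⟩ := hs P
    simp only [mem_image, hD]
    exact ⟨fun ⟨y, h1, h2⟩ => h2 ▸ h1, fun h => ⟨x, h, rfl⟩⟩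
  have hw : ∀ P : Set.range p0, 0 ≤ P.1.2 := fun P => by
    obtain ⟨x, rfl⟩ := hs P; exact rd_nonneg _
  have geo : ∀ n, ∀ H ⊆ (D n).image pc, H.Nonempty → ∃ P ∈ H, ∑ Q ∈ H, Q.1.2 ≤ 2 * P.1.2 := by
    intro n H
    refine Finset.induction_on_max_value (fun P : Set.range p0 => P.1.2) H (by simp) ?_
    · intro a s ha hle ih hsub _
      refine ⟨a, mem_insert_self _ _, ?_⟩
      rw [sum_insert ha]
      rcases s.eq_empty_or_nonempty with rfl | hne
      · rw [sum_empty]; linarith [hw a]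
      obtain ⟨P, hP, h⟩ := ih ((subset_insert _ _).trans hsub) hne
      have h3 : P.1.2 < a.1.2 := lt_of_le_of_ne (hle P hP) fun e => ha (by
        rwa [← Subtype.ext (Prod.ext (((hB _ _).1 (hsub (mem_insert_of_mem hP))).trans
          ((hB _ _).1 (hsub (mem_insert_self _ _))).symm) e)])
      obtain ⟨x, rfl⟩ := hs P
      obtain ⟨y, rfl⟩ := hs a
      have h4 : 2 * (pc x).1.2 ≤ (pc y).1.2 := rd_gap h3
      linarith
  refine ⟨_, ⟨pc, fun P => (D P.1.1).filter (pc · = P), fun P => P.1.1, fun n => (D n).image pc,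
    fun P => P.1.2, hF, fun P => (hs P).imp fun x hx => (hF x P).2 hx, hB, hw, fun n => ?_, geo,
    ?_⟩, fun X => ?_⟩
  · refine le_trans ?_ (h1 n)
    rw [← sum_fiberwise_of_maps_to fun x hx => mem_image_of_mem pc hx]
    refine sum_le_sum fun P hP => ?_
    rw [(hB P n).1 hP, mul_comm, ← nsmul_eq_mul]
    exact card_nsmul_le_sum _ _ _ fun x hx => (mem_filter.1 hx).2 ▸ rd_le (h0 x)
  · refine tendsto_order.2 ⟨fun a ha => Eventually.of_forall fun n =>
      ha.trans_le (sum_nonneg fun P _ => hw P), fun a ha => ?_⟩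
    obtain ⟨x0, hx0⟩ := eventually_atTop.1 (h2.eventually (gt_mem_nhds (half_pos ha)))
    filter_upwards [eventually_gt_atTop ((range x0).sup b)] with n hn
    rcases ((D n).image pc).eq_empty_or_nonempty with h | h
    · rwa [h, sum_empty]
    obtain ⟨P, hP, h3⟩ := geo n _ subset_rfl h
    obtain ⟨x, hx, rfl⟩ := mem_image.1 hP
    have h4 := hx0 x (not_lt.1 fun h' => by
      have := le_sup (f := b) (mem_range.2 h')
      rw [(hD _ _).1 hx] at this; omega)
    have h5 : (pc x).1.2 ≤ w x := rd_le (h0 x)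
    linarith
  generalize hS : Sys.mk _ _ _ _ _ _ _ _ _ _ _ _ = S
  have h3 : ∀ n, S.mu n X = ∑ x ∈ D n, if x ∈ X then rd (w x) else 0 := fun n => by
    have : S.D n = D n := by ext x; rw [Sys.mem_D, hD, ← hS]; rfl
    rw [Sys.mu, this, ← hS]
  refine ⟨fun H γ hγ => (H (γ / 2) (half_pos hγ)).mono fun n hn => ?_,
    fun H γ hγ => (H γ hγ).mono fun n hn => le_trans ?_ hn⟩
  · refine le_trans ?_ (show 2 * S.mu n X ≤ γ by linarith)
    rw [h3, mul_sum]
    refine sum_le_sum fun x _ => ?_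
    by_cases hx : x ∈ X <;> simp [hx, le_rd]
  · rw [h3]
    refine sum_le_sum fun x _ => ?_
    by_cases hx : x ∈ X <;> simp [hx, rd_le (h0 x)]

lemma exists_sys_EU (f : ℕ → ℝ) (h0 : ∀ i, 0 ≤ f i)
    (h1 : Tendsto (fun n => ∑ i ∈ range n, f i) atTop atTop)
    (h2 : Tendsto (fun n => f n / ∑ i ∈ range (n + 1), f i) atTop (𝓝 0)) :
    ∃ (ι : Type) (S : Sys ι), ∀ X : Set ℕ, S.Small X ↔
      Tendsto (fun n => (∑ i ∈ range n, X.indicator f i) / ∑ i ∈ range n, f i) atTop (𝓝 0) := by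
  set F : ℕ → ℝ := fun n => ∑ i ∈ range n, f i with hF
  have hFm : Monotone F := fun _ _ h =>
    sum_le_sum_of_subset_of_nonneg (range_subset_range.2 h) fun i _ _ => h0 i
  have hF0 : ∀ n, 0 ≤ F n := fun n => sum_nonneg fun i _ => h0 i
  set b : ℕ → ℕ := fun x => Nat.log 2 ⌊F (x + 1)⌋₊ with hb
  have hb1 : ∀ x, F (x + 1) ≤ 2 * 2 ^ b x := fun x => by
    have a1 := Nat.lt_floor_add_one (F (x + 1))
    have a2 : ⌊F (x + 1)⌋₊ + 1 ≤ 2 ^ (b x + 1) := Nat.lt_pow_succ_log_self (by norm_num) _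
    have a3 : (⌊F (x + 1)⌋₊ + 1 : ℝ) ≤ 2 ^ (b x + 1) := by exact_mod_cast a2
    rw [pow_succ'] at a3; linarith
  have hb2 : ∀ x, 1 ≤ F (x + 1) → 2 ^ b x ≤ F (x + 1) := fun x h => by
    have a1 : 2 ^ b x ≤ ⌊F (x + 1)⌋₊ := Nat.pow_log_le_self 2 (Nat.floor_pos.2 h).ne'
    exact le_trans (by exact_mod_cast a1) (Nat.floor_le (hF0 _))
  have hbm : Monotone b := fun x y h => Nat.log_mono_right (Nat.floor_mono (hFm (by omega)))
  have h1' := h1.comp (tendsto_add_atTop_nat 1)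
  have hf : ∀ n, {x | b x = n}.Finite := fun n => by
    obtain ⟨x0, hx0⟩ := eventually_atTop.1 (h1'.eventually_gt_atTop (2 * 2 ^ n))
    refine (Set.finite_Iio x0).subset fun x hx => Set.mem_Iio.2 (not_le.1 fun h => ?_)
    exact (hx0 x h).not_ge ((hb1 x).trans_eq (by rw [show b x = n from hx]))
  set D : ℕ → Finset ℕ := fun n => (hf n).toFinset
  have hD : ∀ x n, x ∈ D n ↔ b x = n := fun x n => (hf n).mem_toFinset
  have hi0 : ∀ (X : Set ℕ) i, 0 ≤ X.indicator f i := fun X i =>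
    Set.indicator_nonneg (fun i _ => h0 i) i
  have hs : ∀ (X : Set ℕ) n, ∑ x ∈ D n, X.indicator (fun x => f x / (2 * 2 ^ b x)) x =
      (∑ x ∈ D n, X.indicator f x) / (2 * 2 ^ n) := fun X n => by
    rw [sum_div]
    refine sum_congr rfl fun x hx => ?_
    by_cases h : x ∈ X <;> simp [h, (hD _ _).1 hx]
  have hup : ∀ (X : Set ℕ) n (γ : ℝ), 0 ≤ γ → (∀ x, b x = n →
      ∑ i ∈ range (x + 1), X.indicator f i ≤ γ * F (x + 1)) →
      ∑ x ∈ D n, X.indicator (fun x => f x / (2 * 2 ^ b x)) x ≤ γ := fun X n γ hγ h => by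
    rcases (D n).eq_empty_or_nonempty with e | hne
    · rwa [e, sum_empty]
    have a1 := (hD _ _).1 ((D n).max'_mem hne)
    rw [hs, div_le_iff₀ (by positivity)]
    refine (sum_le_sum_of_subset_of_nonneg (fun y hy => mem_range.2
      (Nat.lt_succ_of_le ((D n).le_max' y hy))) fun i _ _ => hi0 X i).trans ((h _ a1).trans ?_)
    exact mul_le_mul_of_nonneg_left ((hb1 _).trans_eq (by rw [a1])) hγ
  have hm1 : ∀ (X : Set ℕ) n, ∑ x ∈ D n, X.indicator (fun x => f x / (2 * 2 ^ b x)) x ≤ 1 :=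
    fun X n => hup X n 1 zero_le_one fun x _ => by
      rw [one_mul]
      exact sum_le_sum fun i _ => Set.indicator_le_self' (fun _ _ => h0 _) i
  obtain ⟨ι, S, hS⟩ := exists_sys b D hD (fun x => f x / (2 * 2 ^ b x))
    (fun x => div_nonneg (h0 x) (by positivity)) (fun n => by simpa using hm1 Set.univ n) (by
      refine squeeze_zero' (Eventually.of_forall fun x => div_nonneg (h0 x) (by positivity)) ?_ h2
      filter_upwards [h1'.eventually_gt_atTop 0] with x hx
      exact div_le_div_of_nonneg_left (h0 x) hx (hb1 x))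
  refine ⟨ι, S, fun X => (hS X).trans ⟨fun H => ?_, fun H γ hγ => ?_⟩⟩
  · rw [← tendsto_add_atTop_iff_nat 1]
    refine tendsto_order.2 ⟨fun a ha => Eventually.of_forall fun n => ha.trans_le
      (div_nonneg (sum_nonneg fun i _ => hi0 X i) (hF0 _)), fun a ha => ?_⟩
    obtain ⟨n0, hn0⟩ := eventually_atTop.1 (H (a / 8) (by positivity))
    filter_upwards [h1'.eventually_ge_atTop 1,
      h1'.eventually_gt_atTop (2 * 2 ^ n0 / (a / 2))] with x hx1 hx2
    change 1 ≤ F (x + 1) at hx1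
    change _ < F (x + 1) at hx2
    rw [div_lt_iff₀ (half_pos ha)] at hx2
    rw [div_lt_iff₀ (by linarith), ← sum_fiberwise_of_maps_to (t := range (b x + 1)) (g := b)
      fun y hy => mem_range.2 (Nat.lt_succ_of_le (hbm (Nat.le_of_lt_succ (mem_range.1 hy))))]
    have a1 : ∀ n, ∑ y ∈ (range (x + 1)).filter (b · = n), X.indicator f y ≤
        (if n < n0 then 2 * 2 ^ n else 0) + a / 8 * (2 * 2 ^ n) := fun n => by
      refine (sum_le_sum_of_subset_of_nonneg (t := D n) (fun y hy => (hD _ _).2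
        (mem_filter.1 hy).2) fun i _ _ => hi0 X i).trans ?_
      split_ifs with h
      · have := hm1 X n
        rw [hs, div_le_iff₀ (by positivity)] at this
        have : 0 ≤ a / 8 * (2 * 2 ^ n) := by positivity
        linarith
      · have := hn0 n (not_lt.1 h)
        rwa [hs, div_le_iff₀ (by positivity), ← zero_add (a / 8 * _)] at this
    refine (sum_le_sum fun n _ => a1 n).trans_lt ?_
    rw [sum_add_distrib, ← sum_filter, ← mul_sum, ← mul_sum, ← mul_sum,
      geom_sum_eq (by norm_num) (b x + 1)]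
    have a2 : ∑ n ∈ (range (b x + 1)).filter (· < n0), (2 : ℝ) ^ n ≤ 2 ^ n0 := by
      refine (sum_le_sum_of_subset_of_nonneg (t := range n0) (fun n hn => mem_range.2
        (mem_filter.1 hn).2) fun _ _ _ => by positivity).trans ?_
      rw [geom_sum_eq (by norm_num)]; linarith
    have a3 := mul_le_mul_of_nonneg_left (hb2 x hx1) ha.le
    rw [pow_succ]
    change _ < a * F (x + 1)
    nlinarith
  · obtain ⟨x0, hx0⟩ := eventually_atTop.1 ((((tendsto_add_atTop_iff_nat 1).2 H).eventually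
      (ge_mem_nhds hγ)).and (h1'.eventually_gt_atTop 0))
    filter_upwards [eventually_gt_atTop (b x0)] with n hn
    refine hup X n γ hγ.le fun x hx => ?_
    have := hx0 x (not_lt.1 fun h' => by have := hbm h'.le; omega)
    exact (div_le_iff₀ this.2).1 this.1

end Pool.Agent.P.MP_f6e960_lc
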