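import Pool.Agent.P.MP_f6e960_lc.Basic

/-!
Involutions, gluing, and two diagonal consequences of the splitting property.
-/

namespace Pool.Agent.P.MP_f6e960_lc

open Finset Filter Topology Function
open scoped Classical

lemma exists_invol {ε : Type} (Pt : ε → Finset ℕ) (σ : ε → ε) (hσ : Involutive σ)
    (hd : ∀ e e' x, x ∈ Pt e → x ∈ Pt e' → e = e') (hc : ∀ e, (Pt e).card = (Pt (σ e)).card) :
    ∃ g : ℕ → ℕ, Involutive g ∧ (∀ e, ∀ x ∈ Pt e, g x ∈ Pt (σ e)) ∧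
      ∀ x, (∀ e, x ∉ Pt e) → g x = x := by
  let g : ℕ → ℕ := fun x => if h : ∃ e, x ∈ Pt e then
    Nat.nth (· ∈ Pt (σ h.choose)) (Nat.count (· ∈ Pt h.choose) x) else x
  have h0 : ∀ x, (∀ e, x ∉ Pt e) → g x = x := fun x hx => dif_neg (by simpa using hx)
  have h1 : ∀ e, ∀ x ∈ Pt e, g x = Nat.nth (· ∈ Pt (σ e)) (Nat.count (· ∈ Pt e) x) := by
    intro e x hx
    have h : ∃ e, x ∈ Pt e := ⟨e, hx⟩
    have e1 : h.choose = e := hd _ _ x h.choose_spec hx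
    simp only [g, dif_pos h, e1]
  have h2 : ∀ e, ∀ x ∈ Pt e, ∀ hf : {y | y ∈ Pt (σ e)}.Finite,
      Nat.count (· ∈ Pt e) x < hf.toFinset.card := by
    intro e x hx hf
    have := Nat.count_lt_card (p := (· ∈ Pt e)) (Pt e).finite_toSet hx
    have e1 : hf.toFinset = Pt (σ e) := by ext; simp
    have e2 : (Pt e).finite_toSet.toFinset = Pt e := by ext; simp
    rw [e1, ← hc]
    exact this.trans_le (congrArg card e2).le
  have h3 : ∀ e, ∀ x ∈ Pt e, g x ∈ Pt (σ e) := fun e x hx => by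
    rw [h1 e x hx]; exact Nat.nth_mem (p := (· ∈ Pt (σ e))) _ (h2 e x hx)
  refine ⟨g, fun x => ?_, h3, h0⟩
  by_cases h : ∃ e, x ∈ Pt e
  · obtain ⟨e, hx⟩ := h
    rw [h1 _ _ (h3 e x hx), h1 e x hx, Nat.count_nth (p := (· ∈ Pt (σ e))) (h2 e x hx), hσ e]
    exact Nat.nth_count (p := (· ∈ Pt e)) hx
  · have := h0 x (by simpa using h)
    rw [this, this]

/-- One of two matched parts meets `T` in at least half of its points. -/
lemma half_or_half {g : ℕ → ℕ} (hg : Involutive g) {U V : Finset ℕ} {T : Set ℕ}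
    (hUV : ∀ x ∈ U, g x ∈ V) (hT : ∀ x ∈ U, x ∈ T ∨ g x ∈ T) :
    U.card ≤ (U.filter (· ∈ T)).card + (V.filter (· ∈ T)).card := by
  rw [← card_filter_add_card_filter_not (s := U) (· ∈ T)]
  refine Nat.add_le_add_left (card_le_card_of_injOn g (fun x hx => ?_) hg.injective.injOn) _
  obtain ⟨h1, h2⟩ := mem_filter.1 hx
  exact mem_filter.2 ⟨hUV x h1, (hT x h1).resolve_left h2⟩

namespace Sys

variable {ι : Type} {S : Sys ι}

/-- An involution supported on a finite set far out. -/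
def Far (S : Sys ι) (M : ℕ) (g : ℕ → ℕ) (Z : Finset ℕ) : Prop :=
  Involutive g ∧ (∀ x ∉ Z, g x = x) ∧ ∀ x ∈ Z, M ≤ S.b x

lemma Far.maps {M : ℕ} {g : ℕ → ℕ} {Z : Finset ℕ} (h : S.Far M g Z) {x : ℕ} (hx : x ∈ Z) :
    g x ∈ Z := by
  by_contra h1
  have := h.2.1 _ h1
  rw [h.1 x] at this
  exact h1 (this ▸ hx)

lemma Far.pre {M : ℕ} {g : ℕ → ℕ} {Z : Finset ℕ} (h : S.Far M g Z) {X : Set ℕ} (hX : X ⊆ Z) :
    g ⁻¹' X ⊆ Z := fun y hy => by
  have := h.maps (mem_coe.1 (hX hy))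
  rwa [h.1 y] at this

lemma glue (Φ : ℕ → (ℕ → ℕ) → Finset ℕ → Prop) (h : ∀ t M, ∃ g Z, S.Far M g Z ∧ Φ t g Z) :
    ∃ (G : ℕ → ℕ) (g : ℕ → ℕ → ℕ) (Z : ℕ → Finset ℕ), Involutive G ∧ (∀ t, Φ t (g t) (Z t)) ∧
      (∀ t, S.Far t (g t) (Z t)) ∧ (∀ t, ∀ x ∈ Z t, G x = g t x) ∧
      (∀ t, ∀ X ⊆ (Z t : Set ℕ), G ⁻¹' X = g t ⁻¹' X) ∧
      ∀ W : ℕ → Set ℕ, (∀ t, W t ⊆ Z t) → (S.Small (⋃ t, W t) ↔
        ∀ γ : ℝ, 0 < γ → ∀ᶠ t in atTop, ∀ n, S.mu n (W t) ≤ γ) := by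
  choose g0 Z0 hF hΦ using h
  let a : ℕ → ℕ := fun t => Nat.rec 0 (fun t a => max a ((Z0 t a).sup S.b) + 1) t
  have ha : ∀ t, a (t + 1) = max (a t) ((Z0 t (a t)).sup S.b) + 1 := fun t => rfl
  have hm : StrictMono a := strictMono_nat_of_lt_succ fun t => by rw [ha]; omega
  set g : ℕ → ℕ → ℕ := fun t => g0 t (a t)
  set Z : ℕ → Finset ℕ := fun t => Z0 t (a t)
  have hF' : ∀ t, S.Far (a t) (g t) (Z t) := fun t => hF t (a t)
  have hb : ∀ t, ∀ x ∈ Z t, a t ≤ S.b x ∧ S.b x < a (t + 1) := fun t x hx =>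
    ⟨(hF' t).2.2 x hx, by have := le_sup (f := S.b) hx; rw [ha]; simp only [Z] at this; omega⟩
  have hu : ∀ t t' x y, x ∈ Z t → y ∈ Z t' → S.b x = S.b y → t = t' := by
    intro t t' x y hx hy e
    have h1 := hb t x hx
    have h2 := hb t' y hy
    have h3 : t < t' + 1 := hm.lt_iff_lt.1 (by omega)
    have h4 : t' < t + 1 := hm.lt_iff_lt.1 (by omega)
    omega
  let G : ℕ → ℕ := fun x => if h : ∃ t, x ∈ Z t then g h.choose x else x
  have hG : ∀ t, ∀ x ∈ Z t, G x = g t x := by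
    intro t x hx
    have h : ∃ t, x ∈ Z t := ⟨t, hx⟩
    have e1 : h.choose = t := hu _ _ _ _ h.choose_spec hx rfl
    simp only [G, dif_pos h, e1]
  have hGi : Involutive G := by
    intro x
    by_cases h : ∃ t, x ∈ Z t
    · obtain ⟨t, hx⟩ := h
      rw [hG t x hx, hG t _ ((hF' t).maps hx), (hF' t).1 x]
    · have : G x = x := dif_neg h
      rw [this, this]
  refine ⟨G, g, Z, hGi, fun t => hΦ t (a t), fun t => ⟨(hF' t).1, (hF' t).2.1, fun x hx =>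
    (hm.id_le t).trans (hb t x hx).1⟩, hG, fun t X hX => ?_, fun W hW => ⟨fun H γ hγ => ?_,
    fun H γ hγ => ?_⟩⟩
  · ext y
    constructor
    · intro hy
      have h1 : G y ∈ Z t := hX hy
      have h2 := (hF' t).maps h1
      rw [← hG t _ h1, hGi y] at h2
      rwa [Set.mem_preimage, ← hG t y h2]
    · intro hy
      rwa [Set.mem_preimage, hG t y ((hF' t).pre hX hy)]
  · obtain ⟨n0, hn0⟩ := eventually_atTop.1 (H γ hγ)
    filter_upwards [eventually_ge_atTop n0] with t ht n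
    by_cases hn : n0 ≤ n
    · exact (mu_mono (Set.subset_iUnion W t)).trans (hn0 n hn)
    · rw [mu_eq_zero fun x hx e => ?_]
      · exact hγ.le
      · have h1 := (hb t x (hW t hx)).1
        have h2 : t ≤ a t := hm.id_le t
        omega
  · obtain ⟨t0, ht0⟩ := eventually_atTop.1 (H γ hγ)
    filter_upwards [eventually_ge_atTop (a t0)] with n hn
    by_cases h : ∃ x ∈ ⋃ t, W t, S.b x = n
    · obtain ⟨x, hx, e⟩ := h
      obtain ⟨t, hx⟩ := Set.mem_iUnion.1 hx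
      have h1 := (hb t x (hW t hx)).2
      have h2 : t0 < t + 1 := hm.lt_iff_lt.1 (by omega)
      refine (mu_mono' fun y e' hy => ?_).trans (ht0 t (by omega) n)
      obtain ⟨t', hy⟩ := Set.mem_iUnion.1 hy
      rwa [hu _ _ _ _ (hW t hx) (hW t' hy) (e.trans e'.symm)]
    · rw [mu_eq_zero fun x hx e => h ⟨x, hx, e⟩]
      exact hγ.le

lemma ev_inv {γ : ℝ} (hγ : 0 < γ) : ∀ᶠ t : ℕ in atTop, 1 / ((t : ℝ) + 1) ≤ γ :=
  (tendsto_one_div_add_atTop_nhds_zero_nat.eventually (ge_mem_nhds hγ))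

/-- Uniform version of the splitting property. -/
lemma Split.quant (h : S.Split) {ε : ℝ} (hε : 0 < ε) :
    ∃ δ : ℝ, 0 < δ ∧ ∃ M, ∀ g Z, S.Far M g Z → ∃ T : Set ℕ, (∀ x ∈ Z, x ∈ T ∨ g x ∈ T) ∧
      ∀ X ⊆ T, X ⊆ Z → (∀ n, S.mu n X ≤ δ) → ∀ n, S.mu n (g ⁻¹' X) ≤ ε := by
  by_contra H
  push Not at H
  obtain ⟨G, g, Z, hG, hΦ, hF, hGg, hpre, hW⟩ := glue (S := S)
    (fun t g Z => ∀ T : Set ℕ, (∀ x ∈ Z, x ∉ T → g x ∈ T) → ∃ X ⊆ T, X ⊆ Z ∧
      (∀ n, S.mu n X ≤ 1 / ((t : ℝ) + 1)) ∧ ∃ n, ε < S.mu n (g ⁻¹' X))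
    fun t M => by
      obtain ⟨g, Z, h1, h2⟩ := H (1 / ((t : ℝ) + 1)) (by positivity) M
      exact ⟨g, Z, h1, fun T hT => h2 T fun x hx => or_iff_not_imp_left.2 (hT x hx)⟩
  obtain ⟨T, hT1, hT2⟩ := h G hG
  choose X hXT hXZ hX1 n hn using fun t => hΦ t T fun x hx h' => by
    rw [← hGg t x hx]; exact (hT1 x).resolve_left h'
  have h1 : S.Small (⋃ t, X t) := (hW X hXZ).2 fun γ hγ =>
    (ev_inv hγ).mono fun t ht m => (hX1 t m).trans ht
  have h2 := hT2 _ (Set.iUnion_subset hXT) h1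
  rw [Set.preimage_iUnion, Set.iUnion_congr fun t => hpre t _ (hXZ t)] at h2
  obtain ⟨t, ht⟩ := ((hW _ fun t => (hF t).pre (hXZ t)).1 h2 ε hε).exists
  exact (hn t).not_ge (ht _)

/-- The two-level diagonal argument. -/
lemma Split.two (h : S.Split) {ε : ℝ} (hε : 0 < ε) (ρ : ℕ → ℕ → ℕ → Prop)
    (hρ : ∀ s G X, Involutive G → (∀ x ∈ X, ρ s x (G x)) → S.Small (G ⁻¹' X) → S.Small X)
    (H : ∀ s t M : ℕ, ∃ g Z, S.Far M g Z ∧ ∃ X ⊆ (Z : Set ℕ), (∀ x ∈ X, ρ s x (g x)) ∧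
      (∃ n, ε ≤ S.mu n X) ∧ (∀ m, S.mu m (g ⁻¹' X) ≤ 1 / ((s : ℝ) + 1)) ∧
      ∀ m n, S.mu n (X ∩ {x | S.b (g x) = m}) ≤ 1 / ((t : ℝ) + 1)) : False := by
  obtain ⟨G, g, Z, hG, hΦ, hF, hGg, hpre, hW⟩ := glue (S := S) _ fun t M => H t.unpair.1 t M
  obtain ⟨T, hT1, hT2⟩ := h G hG
  choose X hXZ hX1 hX2 hX3 hX4 using hΦ
  have hZ : ∀ t (Y : Set ℕ), X t ∩ Y ⊆ Z t := fun t Y => Set.inter_subset_left.trans (hXZ t)
  have h1 : ∀ γ : ℝ, 0 < γ → ∀ᶠ t in atTop, ∀ m, S.mu m (g t ⁻¹' (X t ∩ T)) ≤ γ := by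
    intro γ hγ
    have : ∀ t, ∃ m, (∃ m', γ < S.mu m' (g t ⁻¹' (X t ∩ T))) →
        γ < S.mu m (g t ⁻¹' (X t ∩ T)) := fun t => by
      by_cases h' : ∃ m', γ < S.mu m' (g t ⁻¹' (X t ∩ T))
      · exact h'.imp fun _ h _ => h
      · exact ⟨0, fun h => (h' h).elim⟩
    choose m hm using this
    have h2 : S.Small (⋃ t, X t ∩ (T ∩ {x | S.b (g t x) = m t})) :=
      (hW _ fun t => hZ t _).2 fun γ hγ => (ev_inv hγ).mono fun t ht n =>
        (mu_mono (Set.inter_subset_inter_right _ Set.inter_subset_right)).trans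
          ((hX4 t (m t) n).trans ht)
    have h3 := hT2 _ (Set.iUnion_subset fun t x hx => hx.2.1) h2
    rw [Set.preimage_iUnion, Set.iUnion_congr fun t => hpre t _ (hZ t _)] at h3
    filter_upwards [(hW _ fun t => (hF t).pre (hZ t _)).1 h3 γ hγ] with t ht m'
    by_contra h'
    refine (hm t ⟨m', not_le.1 h'⟩).not_ge (le_trans (mu_mono' fun y e hy => ?_) (ht (m t)))
    exact ⟨hy.1, hy.2, by rw [Set.mem_ofPred_eq, (hF t).1 y, e]⟩
  have h2 : S.Small (G ⁻¹' ⋃ t, X t ∩ T) := by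
    rw [Set.preimage_iUnion, Set.iUnion_congr fun t => hpre t _ (hZ t _)]
    exact (hW _ fun t => (hF t).pre (hZ t _)).2 h1
  have h3 : ∀ s, ∃ t : ℕ, t.unpair.1 = s ∧ ∀ n, S.mu n (X t ∩ T) ≤ ε / 2 := by
    intro s
    have h4 : S.Small (⋃ t, X t ∩ (T ∩ {_x | t.unpair.1 = s})) := by
      refine hρ s G _ hG (fun x hx => ?_) (h2.mono (Set.preimage_mono
        (Set.iUnion_mono fun t => Set.inter_subset_inter_right _ Set.inter_subset_left)))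
      obtain ⟨t, hx⟩ := Set.mem_iUnion.1 hx
      rw [hGg t x (hXZ t hx.1), ← show t.unpair.1 = s from hx.2.2]
      exact hX1 t x hx.1
    obtain ⟨t0, ht0⟩ := eventually_atTop.1 ((hW _ fun t => hZ t _).1 h4 (ε / 2) (by linarith))
    refine ⟨Nat.pair s t0, by simp, fun n => le_trans (mu_mono ?_)
      (ht0 _ (Nat.right_le_pair s t0) n)⟩
    exact fun x hx => ⟨hx.1, hx.2, by simp⟩
  choose τ hτ1 hτ2 using h3
  set W : ℕ → Set ℕ := fun t => X t ∩ (Tᶜ ∩ {_x | t = τ t.unpair.1}) with hWd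
  have h4 : S.Small (G ⁻¹' ⋃ t, W t) := by
    rw [Set.preimage_iUnion, Set.iUnion_congr fun t => hpre t _ (hZ t _)]
    refine (hW _ fun t => (hF t).pre (hZ t _)).2 fun γ hγ => ?_
    obtain ⟨s0, hs0⟩ := eventually_atTop.1 (ev_inv hγ)
    filter_upwards [eventually_gt_atTop ((range s0).sup τ)] with t ht n
    by_cases e : t = τ t.unpair.1
    · refine (mu_mono (Set.preimage_mono Set.inter_subset_left)).trans
        ((hX3 t n).trans (hs0 _ ?_))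
      by_contra h'
      have := le_sup (f := τ) (mem_range.2 (not_le.1 h'))
      omega
    · rw [mu_eq_zero fun x hx _ => e hx.2.2]
      exact hγ.le
  have h5 := hT2 _ (fun y hy => ?_) h4
  · rw [← Set.preimage_comp, hG.comp_self, Set.preimage_id] at h5
    obtain ⟨t0, ht0⟩ := eventually_atTop.1 ((hW _ fun t => hZ t _).1 h5 (ε / 4) (by linarith))
    obtain ⟨n, hn⟩ := hX2 (τ t0)
    have h6 : t0 ≤ τ t0 := (hτ1 t0).ge.trans (Nat.unpair_left_le _)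
    have h7 : S.mu n (X (τ t0)) ≤ S.mu n (X (τ t0) ∩ T ∪ W (τ t0)) := mu_mono fun x hx => by
      by_cases hx' : x ∈ T
      · exact Or.inl ⟨hx, hx'⟩
      · exact Or.inr ⟨hx, hx', by rw [Set.mem_ofPred_eq, hτ1]⟩
    linarith [mu_union_le (S := S) n (X (τ t0) ∩ T) (W (τ t0)), hτ2 t0 n, ht0 _ h6 n]
  · obtain ⟨t, hy⟩ := Set.mem_iUnion.1 hy
    have := (hT1 (G y)).resolve_left hy.2.1
    rwa [hG y] at this

end Sys

end Pool.Agent.P.MP_f6e960_lc
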