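import Pool.Agent.P.MP_f6e960_lc.Glue
import Pool.Agent.P.MP_f6e960_lc.Comb

/-!
The splitting property bounds the number of relevant pieces of each size.
-/

namespace Pool.Agent.P.MP_f6e960_lc

open Finset Filter Topology Function
open scoped Classical

namespace Sys

variable {ι : Type} {S : Sys ι}

lemma exists_transversal {n : ℕ} {H : Finset ι} (hH : H ⊆ S.B n) :
    ∃ H' ⊆ H, Set.InjOn S.sc H' ∧
      ∑ P ∈ H, S.w P * S.N P ≤ 4 * ∑ P ∈ H', S.w P * S.N P := by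
  have h1 : ∀ j, ∃ P, j ∈ H.image S.sc → P ∈ H.filter (S.sc · = j) ∧
      ∑ Q ∈ H.filter (S.sc · = j), S.w Q ≤ 2 * S.w P := by
    intro j
    by_cases hj : j ∈ H.image S.sc
    · obtain ⟨Q, hQ, e⟩ := mem_image.1 hj
      obtain ⟨P, hP⟩ := S.geo n (H.filter (S.sc · = j)) ((filter_subset _ _).trans hH)
        ⟨Q, mem_filter.2 ⟨hQ, e⟩⟩
      exact ⟨P, fun _ => hP⟩
    · exact ⟨S.pc 0, fun h => (hj h).elim⟩
  choose f hf using h1
  have hs : ∀ j ∈ H.image S.sc, S.sc (f j) = j := fun j hj => (mem_filter.1 (hf j hj).1).2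
  refine ⟨(H.image S.sc).image f, image_subset_iff.2 fun j hj => (mem_filter.1 (hf j hj).1).1,
    fun P hP Q hQ e => ?_, ?_⟩
  · obtain ⟨j, hj, rfl⟩ := mem_image.1 hP
    obtain ⟨j', hj', rfl⟩ := mem_image.1 hQ
    rw [hs j hj, hs j' hj'] at e
    rw [e]
  rw [sum_image fun j hj j' hj' e => by rw [← hs j hj, e, hs j' hj'], mul_sum,
    ← sum_fiberwise_of_maps_to fun P hP => mem_image_of_mem S.sc hP]
  refine sum_le_sum fun j hj => ?_
  have h2 : ∑ Q ∈ H.filter (S.sc · = j), S.w Q * S.N Q ≤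
      (∑ Q ∈ H.filter (S.sc · = j), S.w Q) * (2 * 2 ^ j) := by
    rw [sum_mul]
    refine sum_le_sum fun Q hQ => mul_le_mul_of_nonneg_left ?_ (S.w_nonneg Q)
    rw [← (mem_filter.1 hQ).2]; exact N_le_pow Q
  have h3 := mul_le_mul_of_nonneg_right (hf j hj).2 (show (0 : ℝ) ≤ 2 * 2 ^ j by positivity)
  have h4 := pow_le_N (S := S) (f j)
  rw [hs j hj] at h4
  nlinarith [mul_le_mul_of_nonneg_left h4 (S.w_nonneg (f j))]

lemma exists_transversal' (n : ℕ) (V : Set ι) :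
    ∃ H : Finset ι, (∀ P ∈ H, P ∈ V) ∧ Set.InjOn S.sc H ∧ S.nu n V ≤ 4 * S.nu n H := by
  obtain ⟨H, h1, h2, h3⟩ := exists_transversal (S := S) (n := n) (filter_subset (· ∈ V) _)
  refine ⟨H, fun P hP => (mem_filter.1 (h1 hP)).2, h2, ?_⟩
  rw [nu_eq', nu_eq']
  refine h3.trans (le_of_eq ?_)
  congr 2
  ext P
  simp only [mem_filter, mem_coe]
  exact ⟨fun h => ⟨(mem_filter.1 (h1 h)).1, h⟩, fun h => h.2⟩

/-- Pieces receiving many arrows of a transposition are light. -/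
lemma high_le {G : Finset ι} {M e d c : ℕ} {δ : ℝ} (he : 0 < e) (hc : c = e * (2 * d + 1))
    (hδ : 1 / (c : ℝ) ≤ δ)
    (hq : ∀ g Z, S.Far M g Z → ∃ T : Set ℕ, (∀ x ∈ Z, x ∈ T ∨ g x ∈ T) ∧
      ∀ X ⊆ T, X ⊆ Z → (∀ n, S.mu n X ≤ δ) → ∀ n, S.mu n (g ⁻¹' X) ≤ 1 / (64 * (e : ℝ) ^ 2))
    (hG : ∀ P ∈ G, M ≤ S.bl P ∧ c ≤ 2 ^ S.sc P) (p : ι → ℕ)
    (hp : ∀ P ∈ G, ∀ Q ∈ G, S.sc P = S.sc Q → p P = p Q → P = Q) :
    ∃ r : ι → ι → Prop, (∀ P ∈ G, ∀ Q ∈ G, P ≠ Q → S.sc P = S.sc Q → p P / c = p Q / c →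
      r P Q ∨ r Q P) ∧ ∀ n, S.nu n {Q | d < (G.filter (r · Q)).card} ≤ 1 / e := by
  have hc0 : 0 < c := by rw [hc]; positivity
  have hcR : (0 : ℝ) < c := by exact_mod_cast hc0
  have heR : (0 : ℝ) < e := by exact_mod_cast he
  set u : ι → ℕ := fun P => 2 ^ S.sc P / c with hu
  have hcu : ∀ P, c * u P ≤ (S.F P).card := fun P => (Nat.mul_div_le _ _).trans (pow_le_card P)
  choose pt hpt1 hpt2 hpt3 using fun P => exists_parts (S.F P) (hcu P)
  let adj : ι → ι → Prop := fun P Q => P ∈ G ∧ Q ∈ G ∧ S.sc P = S.sc Q ∧ p P / c = p Q / c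
  let Pt : ι × ι → Finset ℕ := fun a => if adj a.1 a.2 then pt a.1 (p a.2 % c) else ∅
  have hs : ∀ P Q, adj P Q → adj Q P := fun P Q h => ⟨h.2.1, h.1, h.2.2.1.symm, h.2.2.2.symm⟩
  have hP1 : ∀ P Q x, x ∈ Pt (P, Q) → adj P Q ∧ x ∈ pt P (p Q % c) := by
    intro P Q x hx
    by_cases h : adj P Q
    · exact ⟨h, by simpa [Pt, h] using hx⟩
    · simp [Pt, h] at hx
  have hP2 : ∀ P Q, adj P Q → (Pt (P, Q)).card = u P := fun P Q h => by
    simp only [Pt, if_pos h]; exact hpt2 _ _ (Nat.mod_lt _ hc0)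
  have hP3 : ∀ P Q x, x ∈ Pt (P, Q) → S.pc x = P := fun P Q x hx =>
    (S.mem_F _ _).1 (hpt1 _ _ (hP1 P Q x hx).2)
  obtain ⟨g, hg1, hg2, hg3⟩ := exists_invol Pt Prod.swap Prod.swap_swap (by
    rintro ⟨P, Q⟩ ⟨P', Q'⟩ x h1 h2
    obtain rfl : P = P' := (hP3 _ _ _ h1).symm.trans (hP3 _ _ _ h2)
    obtain ⟨a1, b1⟩ := hP1 _ _ _ h1
    obtain ⟨a2, b2⟩ := hP1 _ _ _ h2
    have := hpt3 _ _ _ _ b1 b2
    rw [hp Q a1.2.1 Q' a2.2.1 (a1.2.2.1.symm.trans a2.2.2.1) (by
      rw [← Nat.div_add_mod (p Q) c, ← Nat.div_add_mod (p Q') c, this, ← a1.2.2.2, ← a2.2.2.2])])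
    (by
      rintro ⟨P, Q⟩
      by_cases h : adj P Q
      · rw [hP2 _ _ h, Prod.swap, hP2 _ _ (hs _ _ h), hu]
        simp only [h.2.2.1]
      · have h' : ¬ adj Q P := fun h' => h (hs _ _ h')
        simp [Pt, h, h'])
  have hZ : ∀ P Q x, x ∈ Pt (P, Q) → x ∈ G.biUnion S.F := fun P Q x hx =>
    mem_biUnion.2 ⟨P, (hP1 _ _ _ hx).1.1, hpt1 _ _ (hP1 _ _ _ hx).2⟩
  obtain ⟨T, hT1, hT2⟩ := hq g (G.biUnion S.F) ⟨hg1,
    fun x hx => hg3 x fun a h => hx (hZ a.1 a.2 x h), fun x hx => by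
      obtain ⟨P, h1, h2⟩ := mem_biUnion.1 hx
      rw [b_of_mem h2]; exact (hG P h1).1⟩
  obtain ⟨r, hr⟩ : ∃ r : ι → ι → Prop, ∀ P Q, r P Q ↔
    adj P Q ∧ u P ≤ 2 * ((Pt (P, Q)).filter (· ∈ T)).card := ⟨_, fun _ _ => Iff.rfl⟩
  refine ⟨r, fun P hP Q hQ _ h1 h2 => ?_, fun n => ?_⟩
  · have ha : adj P Q := ⟨hP, hQ, h1, h2⟩
    have h3 := half_or_half hg1 (T := T) (hg2 (P, Q)) fun x hx => hT1 x (hZ _ _ _ hx)
    have h4 : u Q = u P := by simp only [hu, h1]
    rw [hP2 _ _ ha] at h3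
    simp only [hr, ha, hs _ _ ha, true_and, h4, Prod.swap] at h3 ⊢
    omega
  obtain ⟨H, hH1, hH2, hH3⟩ := exists_transversal' (S := S) n
    {Q | d < (G.filter (r · Q)).card}
  set X : Set ℕ := {x | x ∈ T ∧ ∃ Q ∈ H, x ∈ Pt (S.pc x, Q)}
  have hX : ∀ m, S.mu m X ≤ δ := by
    intro m
    refine (mu_le_of_cnt (V := ∅) (η := 1 / c) (by positivity) fun P _ _ => ?_).trans
      (by simpa [nu, mu_empty] using hδ)
    have h1 : ((S.F P).filter (· ∈ X)).card ≤ u P := by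
      rcases ((S.F P).filter (· ∈ X)).eq_empty_or_nonempty with h | ⟨x, hx⟩
      · simp [h]
      · obtain ⟨h1, -, Q, hQ, h2⟩ := mem_filter.1 hx
        rw [(S.mem_F _ _).1 h1] at h2
        rw [← hP2 P Q (hP1 _ _ _ h2).1]
        refine card_le_card fun y hy => ?_
        obtain ⟨h3, -, Q', hQ', h4⟩ := mem_filter.1 hy
        rw [(S.mem_F _ _).1 h3] at h4
        rwa [hH2 hQ hQ' ((hP1 _ _ _ h2).1.2.2.1.symm.trans (hP1 _ _ _ h4).1.2.2.1)]
    rw [one_div, inv_mul_eq_div, le_div_iff₀ hcR, cnt_eq, N, mul_comm]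
    exact_mod_cast (Nat.mul_le_mul_left c h1).trans (hcu P)
  have h1 := hT2 X (fun x hx => hx.1) (fun x ⟨_, Q, _, h⟩ => hZ _ _ _ h) hX n
  have h2 : 1 / (16 * (e : ℝ)) * S.nu n H ≤ S.mu n (g ⁻¹' X) := by
    refine le_mu_of_cnt fun Q _ hQ => ?_
    have h3 : d < (G.filter (r · Q)).card := hH1 Q hQ
    obtain ⟨P0, hP0⟩ := card_pos.1 ((Nat.zero_le d).trans_lt h3)
    have h4 : (G.filter (r · Q)).card * u Q ≤
        2 * ((G.filter (r · Q)).biUnion fun P => (Pt (P, Q)).filter (· ∈ T)).card := by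
      rw [card_biUnion fun P _ P' _ hne => Finset.disjoint_left.2 fun x h1 h2 => hne
        ((hP3 _ _ _ (mem_filter.1 h1).1).symm.trans (hP3 _ _ _ (mem_filter.1 h2).1)), mul_sum]
      refine card_nsmul_le_sum _ _ _ fun P hP => ?_
      have := (hr _ _).1 (mem_filter.1 hP).2
      simpa only [hu, this.1.2.2.1] using this.2
    have h5 : ((G.filter (r · Q)).biUnion fun P => (Pt (P, Q)).filter (· ∈ T)).card ≤
        ((S.F Q).filter (· ∈ g ⁻¹' X)).card := by
      refine card_le_card_of_injOn g (fun x hx => ?_) hg1.injective.injOn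
      obtain ⟨P, -, hx⟩ := mem_biUnion.1 (mem_coe.1 hx)
      obtain ⟨h5, h6⟩ := mem_filter.1 hx
      refine mem_filter.2 ⟨(S.mem_F _ _).2 (hP3 _ _ _ (hg2 (P, Q) x h5)), ?_⟩
      rw [Set.mem_preimage, hg1 x]
      exact ⟨h6, Q, hQ, by rwa [hP3 _ _ _ h5]⟩
    have h6 : (S.F Q).card ≤ 4 * (c * u Q) := by
      have a1 := card_lt_pow (S := S) Q
      have a2 := Nat.lt_mul_div_succ (2 ^ S.sc Q) hc0
      have a3 : 1 ≤ u Q := (Nat.le_div_iff_mul_le hc0).2
        (by simpa using (hG Q ((hr _ _).1 (mem_filter.1 hP0).2).1.2.1).2)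
      have a4 := Nat.mul_le_mul_left c a3
      rw [pow_succ] at a1
      simp only [hu] at a4 ⊢
      nlinarith
    have h7 : (S.F Q).card ≤ 16 * e * ((S.F Q).filter (· ∈ g ⁻¹' X)).card := by
      have a1 : (d + 1) * u Q ≤ 2 * ((S.F Q).filter (· ∈ g ⁻¹' X)).card :=
        (Nat.mul_le_mul_right _ h3).trans (h4.trans (by omega))
      have a2 := Nat.mul_le_mul_left e a1
      rw [hc] at h6
      nlinarith [Nat.zero_le (e * u Q)]
    rw [one_div, inv_mul_eq_div, div_le_iff₀ (by positivity), cnt_eq, N, mul_comm]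
    exact_mod_cast h7
  refine hH3.trans ?_
  rw [le_div_iff₀ heR]
  have h4 := mul_le_mul_of_nonneg_left (h2.trans h1) (show (0 : ℝ) ≤ 64 * e ^ 2 by positivity)
  field_simp at h4
  nlinarith

/-- Fractional selections with at most `c` pieces of each size. -/
def Sel (S : Sys ι) (c : ℕ) : Set (ι → ℝ) :=
  {x | (∀ P, x P ∈ Set.Icc (0 : ℝ) 1) ∧
    ∀ (A : Finset ι) (j : ℕ), (∀ P ∈ A, S.sc P = j) → ∑ P ∈ A, x P ≤ c}

lemma isClosed_sel (c : ℕ) : IsClosed (S.Sel c) := by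
  simp only [Sel, Set.ofPred_and, Set.ofPred_forall]
  refine (isClosed_iInter fun P => isClosed_Icc.preimage (continuous_apply P)).inter
    (isClosed_iInter fun A => isClosed_iInter fun j => isClosed_iInter fun _ =>
      isClosed_le (by fun_prop) continuous_const)

lemma isCompact_sel (c : ℕ) : IsCompact (S.Sel c) :=
  (isCompact_univ_pi fun _ => isCompact_Icc).of_isClosed_subset (isClosed_sel c)
    fun _ hx P _ => hx.1 P

lemma convex_sel (c : ℕ) : Convex ℝ (S.Sel c) := by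
  intro x hx y hy a b ha hb hab
  refine ⟨fun P => convex_Icc (0 : ℝ) 1 (hx.1 P) (hy.1 P) ha hb hab, fun A j hA => ?_⟩
  simp only [Pi.add_apply, Pi.smul_apply, smul_eq_mul, sum_add_distrib, ← mul_sum]
  have h1 := mul_le_mul_of_nonneg_left (hx.2 A j hA) ha
  have h2 := mul_le_mul_of_nonneg_left (hy.2 A j hA) hb
  have : a * c + b * c = c := by rw [← add_mul, hab, one_mul]
  linarith

lemma Split.mult (h : S.Split) {γ : ℝ} (hγ : 0 < γ) : ∃ (V : Set ι) (C : ℕ),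
    (∀ (A : Finset ι) (j : ℕ), (∀ P ∈ A, P ∈ V ∧ S.sc P = j) → A.card ≤ C) ∧
      ∀ᶠ n in atTop, S.nu n Vᶜ ≤ γ := by
  obtain ⟨e, he⟩ := exists_nat_gt (16 / γ)
  have heR : (0 : ℝ) < e := lt_trans (by positivity) he
  have he0 : 0 < e := by exact_mod_cast heR
  obtain ⟨δ, hδ, M, hq⟩ := h.quant (ε := 1 / (64 * (e : ℝ) ^ 2)) (by positivity)
  obtain ⟨d, hd⟩ := exists_nat_gt (1 / δ)
  set c := e * (2 * d + 1) with hc
  have hc0 : 0 < c := by positivity
  have hδ' : 1 / (c : ℝ) ≤ δ := by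
    rw [div_le_iff₀ (by positivity), mul_comm, ← div_le_iff₀ hδ]
    have : d ≤ c := by rw [hc]; nlinarith
    exact hd.le.trans (by exact_mod_cast this)
  set Gn : ℕ → Finset ι := fun n => (S.B n).filter fun P => c ≤ S.sc P with hGn
  set u : ℕ → (ι → ℝ) → ℝ := fun n x => ∑ P ∈ Gn n, S.w P * S.N P * (1 - x P) with hu
  have huc : ∀ n, Continuous (u n) := fun n => by simp only [hu]; fun_prop
  have key : ∀ I : Finset ℕ, (∀ n ∈ I, M ≤ n) → ∃ x ∈ S.Sel c, ∀ n ∈ I, u n x ≤ 2 * (2 / e) := by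
    intro I hI
    refine lp_fin (isCompact_sel c) (convex_sel c) u huc (fun n x y t => ?_) I (by positivity)
      fun a ha => ?_
    · simp only [hu, ← sum_sub_distrib, mul_sum, ← sum_add_distrib]
      exact sum_congr rfl fun P _ => by simp; ring
    set G := I.biUnion Gn
    set v : ι → ℝ := fun P => a (S.bl P) * (S.w P * S.N P) with hv
    have hv0 : ∀ P, 0 ≤ v P := fun P => mul_nonneg (ha _) (pi_nonneg P)
    choose p0 hp1 hp2 using fun j => exists_rank (G.filter (S.sc · = j)) v hv0 hc0 (2 * d + 1)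
    set p : ι → ℕ := fun P => p0 (S.sc P) P with hp
    have hpi : ∀ P ∈ G, ∀ Q ∈ G, S.sc P = S.sc Q → p P = p Q → P = Q := fun P hP Q hQ h1 h2 =>
      hp1 (S.sc P) (by simp [hP]) (by simp [hQ, h1]) (by simpa only [hp, h1] using h2)
    have hG : ∀ P ∈ G, S.bl P ∈ I ∧ P ∈ Gn (S.bl P) := fun P hP => by
      obtain ⟨n, h1, h2⟩ := mem_biUnion.1 hP
      rw [(S.mem_B _ _).1 (mem_filter.1 h2).1]
      exact ⟨h1, h2⟩
    obtain ⟨r, hr1, hr2⟩ := high_le (G := G) he0 hc hδ' hq (fun P hP => ⟨hI _ (hG P hP).1,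
      (mem_filter.1 (hG P hP).2).2.trans Nat.lt_two_pow_self.le⟩) p hpi
    have hsum : ∀ f : ι → ℝ, ∑ P ∈ G, v P * f P =
        ∑ n ∈ I, a n * ∑ P ∈ Gn n, S.w P * S.N P * f P := by
      intro f
      rw [sum_biUnion fun n _ m _ hne => Finset.disjoint_left.2 fun P h1 h2 => hne
        (((S.mem_B _ _).1 (mem_filter.1 h1).1).symm.trans ((S.mem_B _ _).1 (mem_filter.1 h2).1))]
      refine sum_congr rfl fun n _ => ?_
      rw [mul_sum]
      exact sum_congr rfl fun P hP => by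
        simp only [hv, (S.mem_B _ _).1 (mem_filter.1 hP).1, mul_assoc]
    have hnu : ∀ (V : Set ι) (β : ℝ), (∀ n, S.nu n V ≤ β) → ∀ A ⊆ G, (∀ P ∈ A, P ∈ V) →
        ∑ P ∈ A, v P ≤ β * ∑ n ∈ I, a n := by
      intro V β hV A hA hAV
      have := hsum fun P => if P ∈ V then 1 else 0
      simp only [mul_ite, mul_one, mul_zero] at this
      refine (sum_le_sum_of_subset_of_nonneg (t := G.filter (· ∈ V))
        (fun P hP => mem_filter.2 ⟨hA hP, hAV P hP⟩) fun P _ _ => hv0 P).trans ?_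
      rw [sum_filter, this, mul_sum]
      refine sum_le_sum fun n _ => ?_
      rw [mul_comm β]
      refine mul_le_mul_of_nonneg_left (le_trans ?_ (hV n)) (ha n)
      rw [nu_eq]
      exact sum_le_sum_of_subset_of_nonneg (filter_subset _ _) fun P _ _ => by
        split_ifs; exacts [pi_nonneg P, le_rfl]
    refine ⟨fun P => if P ∈ G ∧ p P < c then 1 else 0, ⟨fun P => by beta_reduce; split_ifs <;> simp,
      fun A j hA => ?_⟩, ?_⟩
    · rw [sum_boole, Nat.cast_le]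
      refine (card_le_card_of_injOn p (t := range c) (fun P hP => ?_)
        fun P hP Q hQ => ?_).trans (card_range c).le
      · exact mem_coe.2 (mem_range.2 (mem_filter.1 hP).2.2)
      · exact hpi P (mem_filter.1 hP).2.1 Q (mem_filter.1 hQ).2.1
          ((hA P (mem_filter.1 hP).1).trans (hA Q (mem_filter.1 hQ).1).symm)
    simp only [hu]
    rw [← hsum]
    set L := G.filter fun Q => (G.filter (r · Q)).card ≤ d
    have h1 : (c : ℝ) * ∑ P ∈ L.filter (c ≤ p ·), v P ≤ (2 * d + 1 : ℕ) * ∑ P ∈ G, v P := by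
      rw [← sum_fiberwise_of_maps_to (t := G.image S.sc) (g := S.sc) fun P hP =>
        mem_image_of_mem _ (mem_filter.1 (mem_filter.1 hP).1).1,
        ← sum_fiberwise_of_maps_to fun P hP => mem_image_of_mem S.sc hP, mul_sum, mul_sum]
      refine sum_le_sum fun j _ => le_of_eq_of_le ?_ (hp2 j (L.filter (S.sc · = j))
        (filter_subset_filter _ (filter_subset _ _)) fun s => card_low _ r d ?_ ?_)
      · congr 2
        ext P
        simp only [mem_filter, hp, L]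
        exact ⟨fun h => ⟨⟨h.1.1, h.2⟩, h.2 ▸ h.1.2⟩, fun h => ⟨⟨h.1.1, h.1.2 ▸ h.2⟩, h.1.2⟩⟩
      · intro P hP Q hQ hne
        simp only [mem_filter, L] at hP hQ
        exact hr1 P hP.1.1.1 Q hQ.1.1.1 hne (hP.1.2.trans hQ.1.2.symm)
          (by simp only [hp, hP.1.2, hQ.1.2, hP.2, hQ.2])
      · intro Q hQ
        refine (card_le_card (filter_subset_filter _ fun P hP => ?_)).trans
          (mem_filter.1 (mem_filter.1 (mem_filter.1 hQ).1).1).2
        exact (mem_filter.1 (mem_filter.1 (mem_filter.1 hP).1).1).1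
    have h2 := hnu Set.univ 1 (fun n => mu_le_one n _) G subset_rfl fun _ _ => trivial
    have h3 := hnu _ _ hr2 (G.filter fun Q => d < (G.filter (r · Q)).card) (filter_subset _ _)
      fun P hP => (mem_filter.1 hP).2
    have h4 : ∑ P ∈ L.filter (c ≤ p ·), v P ≤ 1 / e * ∑ n ∈ I, a n := by
      rw [one_div, inv_mul_eq_div, le_div_iff₀ heR]
      refine le_of_mul_le_mul_left ?_ (show (0 : ℝ) < (2 * d + 1 : ℕ) by positivity)
      have := mul_le_mul_of_nonneg_left h2 (Nat.cast_nonneg (α := ℝ) (2 * d + 1))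
      rw [hc, Nat.cast_mul] at h1
      linarith
    have h5 : ∑ P ∈ G, v P * (1 - if P ∈ G ∧ p P < c then 1 else 0) ≤
        ∑ P ∈ L.filter (c ≤ p ·), v P +
          ∑ P ∈ G.filter fun Q => d < (G.filter (r · Q)).card, v P := by
      rw [filter_filter, sum_filter, sum_filter, ← sum_add_distrib]
      refine sum_le_sum fun P hP => ?_
      have := hv0 P
      by_cases a1 : p P < c <;> by_cases a2 : (G.filter (r · P)).card ≤ d <;>
        simp [hP, a1, a2, this, not_lt.1, not_le.1, not_lt.2, not_le.2]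
    have e2 : (2 : ℝ) / e = 1 / e + 1 / e := by ring
    rw [e2, add_mul]
    linarith
  obtain ⟨x, hx⟩ := IsCompact.nonempty_iInter_of_sequence_nonempty_isCompact_isClosed
    (fun t => S.Sel c ∩ ⋂ n ∈ Icc M t, {x | u n x ≤ 2 * (2 / e)})
    (fun t => Set.inter_subset_inter_right _ (Set.biInter_subset_biInter_left
      (coe_subset.2 (Icc_subset_Icc_right (Nat.le_succ t)))))
    (fun t => by
      obtain ⟨x, h1, h2⟩ := key (Icc M t) fun n hn => (mem_Icc.1 hn).1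
      exact ⟨x, h1, Set.mem_iInter₂.2 h2⟩)
    ((isCompact_sel c).inter_right (isClosed_biInter fun n _ => isClosed_le (huc n)
      continuous_const))
    fun t => (isClosed_sel c).inter (isClosed_biInter fun n _ => isClosed_le (huc n)
      continuous_const)
  rw [Set.mem_iInter] at hx
  refine ⟨{P | 1 / 2 ≤ x P}, 2 * c, fun A j hA => ?_, ?_⟩
  · have h1 := (card_nsmul_le_sum A x (1 / 2) fun P hP => (hA P hP).1).trans
      ((hx 0).1.2 A j fun P hP => (hA P hP).2)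
    rw [nsmul_eq_mul] at h1
    have : (A.card : ℝ) ≤ 2 * c := by linarith
    exact_mod_cast this
  filter_upwards [eventually_ge_atTop M, S.tall.eventually
    (ge_mem_nhds (show 0 < γ / 2 / (2 * 2 ^ c) by positivity))] with n hn h1
  have h2 : u n x ≤ 2 * (2 / e) := Set.mem_iInter₂.1 (hx n).2 n (mem_Icc.2 ⟨hn, le_rfl⟩)
  have h3 : S.nu n {P | 1 / 2 ≤ x P}ᶜ ≤ 2 * u n x + (∑ P ∈ S.B n, S.w P) * (2 * 2 ^ c) := by
    simp only [hu, hGn]
    rw [nu_eq, sum_filter, mul_sum, sum_mul, ← sum_add_distrib]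
    refine sum_le_sum fun P _ => ?_
    have a1 := pi_nonneg (S := S) P
    have a2 := ((hx 0).1.1 P).2
    have a3 : 0 ≤ S.w P * (2 * 2 ^ c) := mul_nonneg (S.w_nonneg P) (by positivity)
    have a4 := mul_nonneg a1 (sub_nonneg.2 a2)
    split_ifs with b1 b2 b2
    · have : x P < 1 / 2 := not_le.1 b1
      nlinarith
    · have : S.N P ≤ 2 * 2 ^ c := (N_le_pow P).trans (by gcongr; exacts [one_le_two, by omega])
      linarith [mul_le_mul_of_nonneg_left this (S.w_nonneg P)]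
    all_goals linarith
  rw [le_div_iff₀ (by positivity)] at h1
  have h4 : 16 / (e : ℝ) ≤ γ := by
    rw [div_lt_iff₀ hγ] at he
    rw [div_le_iff₀ heR]; linarith
  have e2 : 16 / (e : ℝ) = 8 * (2 / e) := by ring
  linarith

/-- A level function: injective on each size, and most of the weight sits on low levels. -/
def Lev (S : Sys ι) (l : ι → ℕ) : Prop :=
  (∀ P Q, S.sc P = S.sc Q → l P = l Q → P = Q) ∧
    ∀ γ : ℝ, 0 < γ → ∃ i, ∀ᶠ n in atTop, S.nu n {P | i < l P} ≤ γ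

lemma Split.lev (h : S.Split) : ∃ l, S.Lev l := by
  choose V C hC hV using fun i : ℕ => h.mult (γ := 1 / ((i : ℝ) + 1)) (by positivity)
  have hf : ∀ i j, {P | P ∈ V i ∧ S.sc P = j}.Finite := fun i j => by
    by_contra h'
    obtain ⟨A, h1, h2⟩ := Set.Infinite.exists_subset_card_eq h' (C i + 1)
    have := hC i A j h1
    omega
  choose f hf1 hf2 using fun i j => exists_index (hf i j).toFinset
  refine ⟨fun P => if h : ∃ i, P ∈ V i then Nat.pair (Nat.find h + 1) (f (Nat.find h) (S.sc P) P)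
    else Nat.pair 0 (S.F_ne P).choose, fun P Q h1 h2 => ?_, fun γ hγ => ?_⟩
  · beta_reduce at h2
    split_ifs at h2 with a1 a2 a2 <;> rw [Nat.pair_eq_pair] at h2
    · obtain ⟨h2, h3⟩ := h2
      have b1 := Nat.find_spec a1
      have b2 := Nat.find_spec a2
      rw [Nat.add_right_cancel h2] at h3 b1
      rw [h1] at h3
      exact hf1 _ _ (by simp [b1, h1]) (by simp [b2]) h3
    · omega
    · omega
    · exact ((S.mem_F _ _).1 (S.F_ne P).choose_spec).symm.trans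
        (h2.2 ▸ (S.mem_F _ _).1 (S.F_ne Q).choose_spec)
  · obtain ⟨i, hi⟩ := (ev_inv hγ).exists
    refine ⟨(range (i + 1)).sup fun i' => Nat.pair (i' + 1) (C i'), (hV i).mono fun n hn =>
      (nu_mono' fun P _ hP hPV => ?_).trans (hn.trans hi)⟩
    have h' : ∃ i, P ∈ V i := ⟨i, hPV⟩
    simp only [Set.mem_ofPred_eq, dif_pos h'] at hP
    refine hP.not_ge (le_trans (Nat.pair_lt_pair_right _ ?_).le
      (le_sup (f := fun i' => Nat.pair (i' + 1) (C i'))
        (mem_range.2 (Nat.lt_succ_of_le (Nat.find_min' h' hPV)))))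
    exact (hf2 _ _ P (by simp [Nat.find_spec h'])).trans_le (hC _ _ (S.sc P) (by simp))

end Sys

end Pool.Agent.P.MP_f6e960_lc
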