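import Pool.Agent.P.MP_f6e960_lc.Levels

/-!
Neighbouring pieces, counting, transfer of smallness, and invariant orientations.
-/

namespace Pool.Agent.P.MP_f6e960_lc

open Finset Filter Topology Function
open scoped Classical

lemma sum_fib_le {α β : Type} [DecidableEq β] (A : Finset α) (pr : α → β) (T : Finset β) (hT : ∀ e ∈ A, pr e ∈ T)
    {Δ : ℕ} (hΔ : ∀ t, (A.filter (pr · = t)).card ≤ Δ) {f : β → ℝ} (hf : ∀ t, 0 ≤ f t) :
    ∑ e ∈ A, f (pr e) ≤ Δ * ∑ t ∈ T, f t := by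
  rw [← sum_fiberwise_of_maps_to hT, mul_sum]
  refine sum_le_sum fun t _ => ?_
  rw [sum_congr rfl (g := fun _ => f t) fun e he => by rw [(mem_filter.1 he).2], sum_const,
    nsmul_eq_mul]
  exact mul_le_mul_of_nonneg_right (by exact_mod_cast hΔ t) (hf t)

namespace Sys

variable {ι : Type} {S : Sys ι} {l : ι → ℕ}

/-- Pieces of low level and comparable size. -/
def Near (S : Sys ι) (l : ι → ℕ) (K : ℕ) (P Q : ι) : Prop :=
  l P ≤ K ∧ l Q ≤ K ∧ S.sc P ≤ S.sc Q + K ∧ S.sc Q ≤ S.sc P + K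

lemma Near.symm {K : ℕ} {P Q : ι} (h : S.Near l K P Q) : S.Near l K Q P :=
  ⟨h.2.1, h.1, h.2.2.2, h.2.2.1⟩

lemma Near.mono {K K' : ℕ} {P Q : ι} (h : S.Near l K P Q) (hK : K ≤ K') : S.Near l K' P Q := by
  unfold Near at h ⊢; omega

lemma card_le_sum_cnt {W : Finset ℕ} {X : Set ℕ} {A : Finset ι} {g : ℕ → ℕ} (hg : Injective g)
    (hW : ∀ x ∈ W, g x ∈ X ∧ S.pc (g x) ∈ A) : (W.card : ℝ) ≤ ∑ P ∈ A, S.cnt X P := by
  have h1 : W.card ≤ (A.biUnion fun P => (S.F P).filter (· ∈ X)).card :=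
    card_le_card_of_injOn g (fun x hx => mem_coe.2 (mem_biUnion.2 ⟨_, (hW x hx).2,
      mem_filter.2 ⟨mem_F_self _, (hW x hx).1⟩⟩)) hg.injOn
  unfold cnt
  exact_mod_cast h1.trans card_biUnion_le

lemma sum_cnt_le_card {W : Finset ℕ} {X : Set ℕ} {A : Finset ι}
    (hW : ∀ x ∈ X, S.pc x ∈ A → x ∈ W) : ∑ P ∈ A, S.cnt X P ≤ W.card := by
  have h1 : (A.biUnion fun P => (S.F P).filter (· ∈ X)).card ≤ W.card := card_le_card fun x hx => by
    obtain ⟨P, h1, h2⟩ := mem_biUnion.1 hx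
    exact hW x (mem_filter.1 h2).2 (by rwa [(S.mem_F _ _).1 (mem_filter.1 h2).1])
  rw [card_biUnion fun P _ Q _ h => disjoint_filter_filter (disjoint_F h)] at h1
  unfold cnt
  exact_mod_cast h1

namespace Lev

variable (hl : S.Lev l)
include hl

lemma finite_low (i J : ℕ) : {Q | l Q ≤ i ∧ S.sc Q ≤ J}.Finite :=
  Set.Finite.of_injOn (f := fun Q => (l Q, S.sc Q)) (t := Set.Iic i ×ˢ Set.Iic J)
    (fun _ h => h) (fun P _ Q _ h => hl.1 P Q (Prod.mk.inj h).2 (Prod.mk.inj h).1)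
    ((Set.finite_Iic i).prod (Set.finite_Iic J))

lemma finite_near (K : ℕ) (P : ι) : {Q | S.Near l K P Q}.Finite :=
  (hl.finite_low K (S.sc P + K)).subset fun _ h => ⟨h.2.1, h.2.2.2⟩

/-- The neighbours of a piece. -/
noncomputable def nb (K : ℕ) (P : ι) : Finset ι := (hl.finite_near K P).toFinset

lemma mem_nb {K : ℕ} {P Q : ι} : Q ∈ hl.nb K P ↔ S.Near l K P Q := by simp [nb]

lemma card_nb (K : ℕ) (P : ι) : (hl.nb K P).card ≤ (2 * K + 1) * (K + 1) := by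
  refine (card_le_card_of_injOn (fun Q => (S.sc Q + K - S.sc P, l Q))
    (t := range (2 * K + 1) ×ˢ range (K + 1)) (fun Q hQ => ?_) fun Q hQ Q' hQ' h => ?_).trans
    (by simp)
  · have := hl.mem_nb.1 hQ
    simp only [coe_product, coe_range, Set.mem_prod, Set.mem_Iio]
    unfold Near at this; omega
  · have h1 := hl.mem_nb.1 hQ
    have h2 := hl.mem_nb.1 hQ'
    have h3 := Prod.mk.inj h
    exact hl.1 _ _ (by unfold Near at h1 h2; omega) h3.2

lemma sum_N_le {A : Finset ι} {i J : ℕ} (hA : ∀ Q ∈ A, l Q ≤ i ∧ S.sc Q ≤ J) :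
    ∑ Q ∈ A, S.N Q ≤ 4 * (i + 1) * 2 ^ J := by
  have h1 := sum_fib_le A S.sc (range (J + 1))
    (fun Q hQ => mem_range.2 (Nat.lt_succ_of_le (hA Q hQ).2)) (Δ := i + 1) (fun j => ?_)
    (f := fun j => (2 : ℝ) * 2 ^ j) fun j => by positivity
  · refine (sum_le_sum fun Q _ => N_le_pow Q).trans (h1.trans ?_)
    rw [← mul_sum, geom_sum_eq (by norm_num), pow_succ]
    push_cast
    nlinarith [Nat.cast_nonneg (α := ℝ) i]
  · refine (card_le_card_of_injOn l (t := range (i + 1)) (fun Q hQ => ?_)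
      fun Q hQ Q' hQ' h => ?_).trans (by simp)
    · exact mem_coe.2 (mem_range.2 (Nat.lt_succ_of_le (hA Q (mem_filter.1 hQ).1).1))
    · exact hl.1 _ _ ((mem_filter.1 hQ).2.trans (mem_filter.1 hQ').2.symm) h

lemma sum_N_small {A : Finset ι} {i k : ℕ} {P : ι}
    (hA : ∀ Q ∈ A, l Q ≤ i ∧ S.sc Q + k ≤ S.sc P) :
    ∑ Q ∈ A, S.N Q ≤ 4 * (i + 1) / 2 ^ k * S.N P := by
  rcases A.eq_empty_or_nonempty with rfl | ⟨Q, hQ⟩
  · have := N_pos (S := S) P
    rw [sum_empty]; positivity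
  obtain ⟨J, hJ⟩ : ∃ J, S.sc P = J + k := ⟨S.sc P - k, by have := (hA Q hQ).2; omega⟩
  refine (hl.sum_N_le (i := i) (J := J) fun Q hQ => ⟨(hA Q hQ).1, by
    have := (hA Q hQ).2; omega⟩).trans ?_
  have := pow_le_N (S := S) P
  rw [hJ, pow_add] at this
  rw [div_mul_eq_mul_div, le_div_iff₀ (by positivity), mul_assoc]
  exact mul_le_mul_of_nonneg_left this (by positivity)

lemma sum_nb (K : ℕ) (P : ι) : ∑ Q ∈ hl.nb K P, S.N Q ≤ 4 * (K + 1) * 2 ^ K * S.N P := by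
  refine (hl.sum_N_le (i := K) (J := S.sc P + K) fun Q hQ =>
    ⟨(hl.mem_nb.1 hQ).2.1, (hl.mem_nb.1 hQ).2.2.2⟩).trans ?_
  rw [pow_add, mul_comm (2 ^ _), ← mul_assoc]
  exact mul_le_mul_of_nonneg_left (pow_le_N P) (by positivity)

lemma finite_near' (K M : ℕ) : {P | ∃ Q, S.bl Q < M ∧ S.Near l K Q P}.Finite :=
  ((finite_bl_lt (S := S) M).biUnion fun Q _ => hl.finite_near K Q).subset
    fun _ ⟨_, h1, h2⟩ => Set.mem_biUnion h1 h2

lemma escape (K M : ℕ) : ∃ M', ∀ P Q, S.Near l K P Q → M' ≤ S.bl P → M ≤ S.bl Q := by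
  obtain ⟨M', h⟩ := exists_bl_le (S := S) (hl.finite_near' K M)
  refine ⟨M' + 1, fun P Q h1 h2 => ?_⟩
  by_contra h3
  have := h P ⟨Q, not_le.1 h3, h1.symm⟩
  omega

lemma big_sc (i J : ℕ) : ∃ M', ∀ P, l P ≤ i → M' ≤ S.bl P → J ≤ S.sc P := by
  obtain ⟨M', h⟩ := exists_bl_le (S := S) (hl.finite_low i J)
  refine ⟨M' + 1, fun P h1 h2 => ?_⟩
  by_contra h3
  have := h P ⟨h1, by omega⟩
  omega

/-- Transfer of smallness from pieces to points. -/
lemma transfer {O : ι → ι → Prop} (hO : S.Inv O) (K : ℕ) {X Y : Set ℕ} (hY : S.Small Y)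
    {V : Set ι} {γ η : ℝ} (hη : 0 ≤ η) (hV : ∀ᶠ n in atTop, S.nu n V ≤ γ)
    (h : ∀ P ∉ V, S.cnt X P ≤ η * S.N P + ∑ Q ∈ (hl.nb K P).filter (O · P), S.cnt Y Q)
    {ε : ℝ} (hε : 0 < ε) : ∀ᶠ n in atTop, S.mu n X ≤ γ + η + ε := by
  set c : ℝ := 4 * (K + 1) * 2 ^ K
  have hc : 0 < c := by positivity
  have h1 := hO {Q | ε / 2 / c * S.N Q ≤ S.cnt Y Q} (hY.of_cnt (by positivity) fun _ h => h)
  filter_upwards [hV, h1 (ε / 2) (by positivity)] with n h2 h3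
  refine (mu_le_of_cnt (V := V ∪ {P | ∃ Q ∈ {Q | ε / 2 / c * S.N Q ≤ S.cnt Y Q}, O Q P})
    (η := η + ε / 2) (by positivity) fun P _ hP => ?_).trans ?_
  · rw [Set.mem_union, not_or] at hP
    refine (h P hP.1).trans ?_
    have h4 : ∑ Q ∈ (hl.nb K P).filter (O · P), S.cnt Y Q ≤
        ε / 2 / c * ∑ Q ∈ hl.nb K P, S.N Q := by
      rw [mul_sum]
      refine (sum_le_sum fun Q hQ => le_of_not_ge fun h' => hP.2 ⟨Q, h', (mem_filter.1 hQ).2⟩).trans
        (sum_le_sum_of_subset_of_nonneg (filter_subset _ _) fun Q _ _ => ?_)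
      have := N_pos (S := S) Q
      positivity
    have h5 := mul_le_mul_of_nonneg_left (hl.sum_nb K P) (show 0 ≤ ε / 2 / c by positivity)
    have h6 : ε / 2 / c * (c * S.N P) = ε / 2 * S.N P := by field_simp
    linarith
  · have := nu_union_le (S := S) n V {P | ∃ Q ∈ {Q | ε / 2 / c * S.N Q ≤ S.cnt Y Q}, O Q P}
    have h4 : S.nu n {P | ∃ Q ∈ {Q | ε / 2 / c * S.N Q ≤ S.cnt Y Q}, O Q P} ≤ ε / 2 := h3
    linarith

lemma modulus {O : ι → ι → Prop} (hO : S.Inv O) {K : ℕ} (hK : ∀ Q P, O Q P → S.Near l K P Q)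
    (V : ℕ → Set ι) (hV : ∀ γ : ℝ, 0 < γ → ∃ s, ∀ᶠ n in atTop, S.nu n (V s) ≤ γ) {γ : ℝ}
    (hγ : 0 < γ) : ∃ s, ∀ᶠ n in atTop, S.nu n {P | ∃ Q ∈ V s, O Q P} ≤ γ := by
  by_contra H
  simp only [not_exists, not_eventually, not_le, frequently_atTop] at H
  choose s hs using fun r : ℕ => hV ((1 / 2) ^ r) (by positivity)
  choose M hM using fun r => eventually_atTop.1 (hs r)
  choose M' hM' using fun r => hl.escape K (M r)
  choose n hn1 hn2 using fun r => H (s r) (max (M' r) r)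
  set W : ℕ → Set ι := fun r => {Q | Q ∈ V (s r) ∧ ∃ P, S.bl P = n r ∧ S.Near l K P Q}
  have h1 : ∀ r m, S.nu m (W r) ≤ (1 / 2) ^ r := by
    intro r m
    by_cases hm : M r ≤ m
    · exact (nu_mono' fun _ _ h => h.1).trans (hM r m hm)
    · rw [nu, mu_eq_zero fun x hx e => ?_]
      · positivity
      · obtain ⟨_, P, h1, h2⟩ := hx
        have := hM' r P _ h2 (h1 ▸ (le_max_left _ _).trans (hn1 r))
        exact hm (e ▸ this)
  have h2 : S.Small (S.pc ⁻¹' ⋃ r, W r) := by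
    intro γ' hγ'
    obtain ⟨r0, hr0⟩ := exists_pow_lt_of_lt_one (show 0 < γ' / 4 by positivity)
      (show (1 / 2 : ℝ) < 1 by norm_num)
    have h3 : (⋃ r ∈ Set.Iio r0, W r).Finite := (Set.finite_Iio r0).biUnion fun r _ =>
      (hl.finite_near' K (n r + 1)).subset fun Q ⟨_, P, h1, h2⟩ => ⟨P, by omega, h2⟩
    filter_upwards [small_of_finite (S := S) h3 (γ' / 2) (by positivity)] with m hm
    have h4 := mu_iUnion_le (S := S) (n := m) (V := fun r => S.pc ⁻¹' W (r0 + r))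
      (c := (1 / 2) ^ r0) fun r => by rw [← pow_add]; exact h1 _ m
    refine (mu_mono fun x hx => ?_).trans ((mu_union_le m (S.pc ⁻¹' ⋃ r ∈ Set.Iio r0, W r)
      (⋃ r, S.pc ⁻¹' W (r0 + r))).trans (by linarith))
    obtain ⟨r, hr⟩ := Set.mem_iUnion.1 hx
    by_cases h' : r < r0
    · exact Or.inl (Set.mem_biUnion h' hr)
    · exact Or.inr (Set.mem_iUnion.2 ⟨r - r0, by rwa [Nat.add_sub_cancel' (not_lt.1 h')]⟩)
  obtain ⟨r, hr⟩ := eventually_atTop.1 (hO _ h2 γ hγ)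
  refine (hn2 r).not_ge (le_trans (nu_mono' ?_) (hr _ ((le_max_right _ _).trans (hn1 r))))
  rintro P h3 ⟨Q, h4, h5⟩
  exact ⟨Q, Set.mem_iUnion.2 ⟨r, h4, P, h3, hK _ _ h5⟩, h5⟩

/-- An invariant orientation of the pairs of neighbours. -/
lemma base (h : S.Split) (K : ℕ) :
    ∃ O, S.Inv O ∧ ∀ P Q, S.Near l K P Q → O P Q ∨ O Q P := by
  have key : ∀ γ : ℕ × ℕ, ∃ O, S.Inv O ∧ ∀ P Q, S.Near l K P Q → l P + l Q = γ.1 →
      (S.sc P + S.sc Q) % (2 * K + 1) = γ.2 → O P Q ∨ O Q P := by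
    intro γ
    choose sub hs1 hs2 using fun P Q : ι =>
      exists_subset_card_eq (s := S.F P) (min_le_left _ (S.F Q).card)
    let adj : ι → ι → Prop := fun P Q => S.Near l K P Q ∧ l P + l Q = γ.1 ∧
      (S.sc P + S.sc Q) % (2 * K + 1) = γ.2
    let Pt : ι × ι → Finset ℕ := fun a => if adj a.1 a.2 then sub a.1 a.2 else ∅
    have hs : ∀ P Q, adj P Q → adj Q P := fun P Q h =>
      ⟨h.1.symm, by rw [add_comm]; exact h.2.1, by rw [add_comm]; exact h.2.2⟩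
    have hP1 : ∀ P Q x, x ∈ Pt (P, Q) → adj P Q ∧ S.pc x = P := by
      intro P Q x hx
      by_cases h : adj P Q
      · exact ⟨h, (S.mem_F _ _).1 (hs1 P Q (by simpa [Pt, h] using hx))⟩
      · simp [Pt, h] at hx
    have hP2 : ∀ P Q, adj P Q → (Pt (P, Q)).card = min (S.F P).card (S.F Q).card :=
      fun P Q h => by simp only [Pt, if_pos h]; exact hs2 _ _
    obtain ⟨g, hg1, hg2, -⟩ := exists_invol Pt Prod.swap Prod.swap_swap (by
      rintro ⟨P, Q⟩ ⟨P', Q'⟩ x h1 h2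
      obtain rfl : P = P' := (hP1 _ _ _ h1).2.symm.trans (hP1 _ _ _ h2).2
      obtain ⟨a1, a2, a3⟩ := (hP1 _ _ _ h1).1
      obtain ⟨b1, b2, b3⟩ := (hP1 _ _ _ h2).1
      rw [hl.1 Q Q' ?_ (by omega)]
      have := Nat.ModEq.add_left_cancel' _ (a3.trans b3.symm)
      unfold Near at a1 b1
      exact this.eq_of_abs_lt (by rw [abs_lt]; omega))
      (by
        rintro ⟨P, Q⟩
        by_cases h : adj P Q
        · rw [hP2 _ _ h, Prod.swap, hP2 _ _ (hs _ _ h), min_comm]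
        · have h' : ¬ adj Q P := fun h' => h (hs _ _ h')
          simp [Pt, h, h'])
    obtain ⟨T, hT1, hT2⟩ := h g hg1
    refine ⟨fun P Q => adj P Q ∧ min (S.F P).card (S.F Q).card ≤
      2 * ((Pt (P, Q)).filter (· ∈ T)).card, fun V hV => ?_, fun P Q h1 h2 h3 => ?_⟩
    · refine (hT2 (S.pc ⁻¹' V ∩ T) Set.inter_subset_right (hV.mono Set.inter_subset_left)).of_cnt
        (θ := 1 / (4 * 2 ^ K)) (by positivity) ?_
      rintro Q ⟨P, h1, h2, h3⟩
      have h4 := card_le_sum_cnt (S := S) (W := (Pt (P, Q)).filter (· ∈ T)) (A := {Q})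
        (X := g ⁻¹' (S.pc ⁻¹' V ∩ T)) hg1.injective fun x hx => by
          obtain ⟨a1, a2⟩ := mem_filter.1 hx
          rw [Set.mem_preimage, hg1 x, mem_singleton]
          exact ⟨⟨by rwa [Set.mem_preimage, (hP1 _ _ _ a1).2], a2⟩,
            (hP1 _ _ _ (hg2 (P, Q) x a1)).2⟩
      rw [sum_singleton] at h4
      refine le_trans ?_ h4
      have h5 : (S.F Q).card ≤ 2 * 2 ^ K * min (S.F P).card (S.F Q).card := by
        have a1 := card_lt_pow (S := S) Q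
        have a2 := pow_le_card (S := S) P
        have a3 : 2 ^ (S.sc Q + 1) ≤ 2 ^ (1 + K + S.sc P) :=
          Nat.pow_le_pow_right two_pos (by have := h2.1.2.2.2; omega)
        have a4 : 1 ≤ 2 ^ K := Nat.one_le_two_pow
        rw [pow_add _ (1 + K), pow_add _ 1 K, pow_one] at a3
        rcases le_total (S.F P).card (S.F Q).card with h' | h'
        · rw [min_eq_left h']; nlinarith
        · rw [min_eq_right h']; nlinarith
      have h6 : (S.F Q).card ≤ 4 * 2 ^ K * ((Pt (P, Q)).filter (· ∈ T)).card := by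
        nlinarith [Nat.mul_le_mul_left (2 * 2 ^ K) h3]
      rw [one_div, inv_mul_eq_div, div_le_iff₀ (by positivity), N, mul_comm]
      exact_mod_cast h6
    · have ha : adj P Q := ⟨h1, h2, h3⟩
      have h4 := half_or_half hg1 (T := T) (hg2 (P, Q)) fun x _ => hT1 x
      rw [hP2 _ _ ha] at h4
      simp only [ha, hs _ _ ha, true_and, Prod.swap] at h4 ⊢
      omega
  choose O hO1 hO2 using key
  refine ⟨_, inv_biUnion (range (2 * K + 1) ×ˢ range (2 * K + 1)) hO1, fun P Q h1 => ?_⟩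
  have h2 : (l P + l Q, (S.sc P + S.sc Q) % (2 * K + 1)) ∈
      range (2 * K + 1) ×ˢ range (2 * K + 1) := by
    have := Nat.mod_lt (S.sc P + S.sc Q) (show 0 < 2 * K + 1 by omega)
    simp only [mem_product, mem_range]
    unfold Near at h1; omega
  exact (hO2 _ P Q h1 rfl rfl).imp (fun h => ⟨_, h2, h⟩) fun h => ⟨_, h2, h⟩

end Lev

end Sys

end Pool.Agent.P.MP_f6e960_lc
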