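import Pool.Agent.P.MP_f6e960_lc.Demote

/-!
The enumeration: pieces are sorted by weighted in-degree.
-/

namespace Pool.Agent.P.MP_f6e960_lc

open Finset Filter Topology Function
open scoped Classical

lemma sum_union_le' {α : Type} (A B : Finset α) {f : α → ℝ} (hf : ∀ a, 0 ≤ f a) :
    ∑ a ∈ A ∪ B, f a ≤ ∑ a ∈ A, f a + ∑ a ∈ B, f a := by
  have := sum_union_inter (s₁ := A) (s₂ := B) (f := f)
  linarith [sum_nonneg (s := A ∩ B) fun a _ => hf a]

lemma sum_biUnion_le' {α β : Type} (A : Finset β) (t : β → Finset α) {f : α → ℝ}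
    (hf : ∀ a, 0 ≤ f a) : ∑ a ∈ A.biUnion t, f a ≤ ∑ b ∈ A, ∑ a ∈ t b, f a := by
  induction A using Finset.induction_on with
  | empty => simp
  | insert b A hb ih =>
    rw [biUnion_insert, sum_insert hb]
    exact (sum_union_le' _ _ hf).trans (by linarith)

namespace Sys

variable {ι : Type} {S : Sys ι} {l : ι → ℕ}

/-- The tournament on pieces. -/
lemma Lev.tournament (hl : S.Lev l) (h : S.Split) :
    ∃ (inn : ι → Finset ι) (Good : ℕ → Set ι), (∀ P, P ∉ inn P) ∧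
      (∀ P Q, P ≠ Q → P ∈ inn Q ∨ Q ∈ inn P) ∧
      (∀ K, S.Inv fun Q P => Q ∈ inn P ∧ S.Near l K P Q) ∧ (∀ s, ∀ P ∈ Good s, l P ≤ s) ∧
      (∀ γ : ℝ, 0 < γ → ∃ s, ∀ᶠ n in atTop, S.nu n (Good s)ᶜ ≤ γ) ∧
      ∀ η : ℝ, 0 < η → ∀ s, ∀ᶠ K in atTop, ∀ P ∈ Good s,
        ∑ Q ∈ (inn P).filter fun Q => ¬ S.Near l K P Q, S.N Q ≤ η * S.N P := by
  choose k hk T0 hT1 hT2 hT3 hT4 using fun s : ℕ =>
    hl.demote h s (ε := (1 / 2) ^ s) (by positivity)
  have hex : ∀ P Q, ∃ s, S.Near l (k (s + 1)) P Q := fun P Q =>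
    ⟨l P + l Q + S.sc P + S.sc Q, by
      have := hk (l P + l Q + S.sc P + S.sc Q + 1)
      unfold Near; omega⟩
  obtain ⟨cl, hcl⟩ : ∃ cl : ι → ι → ℕ, ∀ P Q, cl P Q = Nat.find (hex P Q) := ⟨_, fun _ _ => rfl⟩
  have c1 : ∀ P Q, S.Near l (k (cl P Q + 1)) P Q := fun P Q => hcl P Q ▸ Nat.find_spec (hex P Q)
  have c2 : ∀ P Q s, S.Near l (k (s + 1)) P Q → cl P Q ≤ s := fun P Q s h =>
    hcl P Q ▸ Nat.find_min' _ h
  have c3 : ∀ P Q, cl P Q = cl Q P := fun P Q =>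
    le_antisymm (c2 _ _ _ (c1 Q P).symm) (c2 _ _ _ (c1 P Q).symm)
  have c4 : ∀ P Q, 1 ≤ cl P Q → ¬ S.Near l (k (cl P Q)) P Q := fun P Q h1 h2 => by
    have := c2 P Q (cl P Q - 1) (by rwa [Nat.sub_add_cancel h1])
    omega
  have hf : ∀ P, {Q | Q ≠ P ∧ T0 (cl P Q) (k (cl P Q + 1)) Q P}.Finite := by
    intro P
    refine ((Set.finite_Iic (l P + S.bl P + S.sc P)).biUnion fun s _ =>
      hl.finite_near (k (s + 1)) P).subset fun Q hQ => Set.mem_biUnion ?_ (c1 P Q)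
    by_contra h'
    simp only [Set.mem_Iic, not_le] at h'
    have := hT3 _ _ P Q hQ.2 (by omega) (c1 P Q) (c4 P Q (by omega))
    omega
  set Ov : ℕ → Set ι := fun s => {P | l P ≤ s ∧ (1 / 2) ^ s * S.N P <
    ∑ Q ∈ (hl.nb (k (s + 1)) P).filter fun Q => ¬ S.Near l (k s) P Q ∧ T0 s (k (s + 1)) Q P,
      S.N Q} with hOv
  refine ⟨fun P => (hf P).toFinset, fun s => {P | l P ≤ s ∧ ∀ r, P ∉ Ov (s + r)}, by simp,
    fun P Q hne => ?_, fun K => ?_, fun s P hP => hP.1, fun γ hγ => ?_, fun η hη s => ?_⟩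
  · simp only [Set.Finite.mem_toFinset, Set.mem_ofPred_eq, c3 Q P]
    exact (hT2 _ _ P Q (c1 P Q)).imp (fun h => ⟨hne, h⟩) fun h => ⟨hne.symm, h⟩
  · refine (inv_biUnion (range (K + 1)) fun s => hT1 s (k (s + 1))).mono fun Q P hQ => ?_
    refine ⟨cl P Q, mem_range.2 (Nat.lt_succ_of_le (c2 _ _ _ (hQ.2.mono ?_))),
      ((hf P).mem_toFinset.1 hQ.1).2⟩
    have := hk (K + 1); omega
  · obtain ⟨i, hi⟩ := hl.2 (γ / 2) (by positivity)
    obtain ⟨r0, hr0⟩ := exists_pow_lt_of_lt_one (show 0 < γ / 4 by positivity)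
      (show (1 / 2 : ℝ) < 1 by norm_num)
    refine ⟨i + r0, hi.mono fun n hn => ?_⟩
    have h1 := mu_iUnion_le (S := S) (n := n) (V := fun r => S.pc ⁻¹' Ov (i + r0 + r))
      (c := (1 / 2) ^ (i + r0)) fun r => by rw [← pow_add]; exact hT4 _ _ n
    have h2 : (1 / 2 : ℝ) ^ (i + r0) ≤ (1 / 2) ^ r0 :=
      pow_le_pow_of_le_one (by norm_num) (by norm_num) (by omega)
    refine (mu_mono fun x hx => ?_).trans ((mu_union_le n (S.pc ⁻¹' {P | i < l P})
      (⋃ r, S.pc ⁻¹' Ov (i + r0 + r))).trans (by unfold nu at hn; linarith))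
    by_cases h' : i < l (S.pc x)
    · exact Or.inl h'
    · refine Or.inr (Set.mem_iUnion.2 ?_)
      by_contra h''
      exact hx ⟨by omega, fun r hr => h'' ⟨r, hr⟩⟩
  · obtain ⟨r0, hr0⟩ := exists_pow_lt_of_lt_one (show 0 < η / 2 by positivity)
      (show (1 / 2 : ℝ) < 1 by norm_num)
    filter_upwards [eventually_ge_atTop ((range (s + r0 + 2)).sup k)] with K hK P hP
    set A := (hf P).toFinset.filter fun Q => ¬ S.Near l K P Q
    have h1 : ∀ Q ∈ A, s + r0 + 1 ≤ cl P Q := fun Q hQ => by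
      by_contra h'
      exact (mem_filter.1 hQ).2 ((c1 P Q).mono ((le_sup (f := k)
        (mem_range.2 (by omega))).trans hK))
    rw [← sum_fiberwise_of_maps_to (t := range (A.sup (cl P) + 1))
      (g := fun Q => cl P Q - (s + r0)) fun Q hQ => mem_range.2 (by
        have := le_sup (f := cl P) hQ; omega)]
    have h2 := (N_pos (S := S) P).le
    refine (sum_le_sum (g := fun r => (1 / 2) ^ r0 * S.N P * (1 / 2) ^ r) fun r _ => ?_).trans ?_
    · have h3 := hP.2 (r0 + r)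
      simp only [hOv, Set.mem_ofPred_eq, not_and, not_lt] at h3
      refine le_trans (sum_le_sum_of_subset_of_nonneg (fun Q hQ => ?_) fun Q _ _ => (N_pos Q).le)
        ((h3 (by have := hP.1; omega)).trans ?_)
      · obtain ⟨a1, a2⟩ := mem_filter.1 hQ
        have a3 := h1 Q a1
        have a4 : s + (r0 + r) = cl P Q := by omega
        rw [a4]
        exact mem_filter.2 ⟨hl.mem_nb.2 (c1 P Q), c4 P Q (by omega),
          ((hf P).mem_toFinset.1 (mem_filter.1 a1).1).2⟩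
      · rw [mul_right_comm, ← pow_add]
        exact mul_le_mul_of_nonneg_right
          (pow_le_pow_of_le_one (by norm_num) (by norm_num) (by omega)) h2
    · rw [← mul_sum]
      refine (mul_le_mul_of_nonneg_left (sum_geometric_two_le _) (by positivity)).trans ?_
      nlinarith

theorem Split.order (h : S.Split) : ∃ φ : ℕ ≃ ℕ, ∀ B C : Set ℕ, S.Small B →
    (∀ n, (C ∩ {y | φ y < n}).ncard ≤ (B ∩ {y | φ y < n}).ncard) → S.Small C := by
  obtain ⟨l, hl⟩ := h.lev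
  obtain ⟨inn, Good, h1, h2, h3, h4, h5, h6⟩ := hl.tournament h
  set D : ι → ℕ := fun P => ∑ Q ∈ inn P, (S.F Q).card with hD
  have path : ∀ (P Q : ι) (p : ι → Prop), ∑ R ∈ (inn P).filter (¬ p ·), S.N R < S.N P →
      D Q ≤ D P → Q = P ∨ Q ∈ inn P ∨ ∃ R ∈ (inn P).filter p, Q ∈ inn R := by
    intro P Q p hp hQ
    by_contra h'
    simp only [not_or, not_exists, not_and] at h'
    have a1 : insert P ((inn P).filter p) ⊆ inn Q := insert_subset
      ((h2 Q P h'.1).resolve_left h'.2.1) fun R hR => (h2 Q R fun e =>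
        h'.2.1 (e ▸ (mem_filter.1 hR).1)).resolve_left (h'.2.2 R hR)
    have a2 := sum_le_sum_of_subset (f := fun Q => (S.F Q).card) a1
    rw [sum_insert fun h => h1 P (mem_filter.1 h).1] at a2
    have a3 : ∑ R ∈ (inn P).filter p, (S.F R).card + ∑ R ∈ (inn P).filter (¬ p ·), (S.F R).card =
      ∑ R ∈ inn P, (S.F R).card := sum_filter_add_sum_filter_not _ _ _
    have a4 : ∑ R ∈ (inn P).filter (¬ p ·), (S.F R).card < (S.F P).card := by
      unfold N at hp; exact_mod_cast hp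
    simp only [hD] at hQ
    omega
  obtain ⟨φ, hφ⟩ := exists_sort (fun x => D (S.pc x)) fun x => by
    refine ((insert (S.pc x) (inn (S.pc x) ∪ (inn (S.pc x)).biUnion inn)).biUnion
      S.F).finite_toSet.subset fun y hy => mem_coe.2 (mem_biUnion.2 ⟨_, ?_, mem_F_self y⟩)
    simpa using path (S.pc x) (S.pc y) (fun _ => True) (by simpa using N_pos _) hy
  refine ⟨φ, fun B C hB hC γ hγ => ?_⟩
  obtain ⟨s0, hs0⟩ := h5 (γ / 5) (by positivity)
  obtain ⟨K1, hK1⟩ := (h6 (1 / 2) (by norm_num) s0).exists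
  obtain ⟨s1, hs1⟩ := hl.modulus (h3 K1) (fun _ _ h => h.2) _ h5 (γ := γ / 5) (by positivity)
  set c : ℝ := 4 * (K1 + 1) * 2 ^ K1
  have hc : 0 < c := by positivity
  obtain ⟨K2, hK2, hK3⟩ := ((h6 (γ / 5) (by positivity) s0).and
    (h6 (γ / 5 / c) (by positivity) s1)).exists
  have hV : ∀ᶠ n in atTop, S.nu n ((Good s0)ᶜ ∪
      {P | ∃ Q ∈ (Good s1)ᶜ, Q ∈ inn P ∧ S.Near l K1 P Q}) ≤ γ / 5 + γ / 5 :=
    (hs0.and hs1).mono fun n hn => (nu_union_le n _ _).trans (add_le_add hn.1 hn.2)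
  refine (hl.transfer (X := C) ((inv_eq.or (h3 K2)).or ((h3 K2).comp (h3 K1))) (K1 + K2 + s0) hB
    (η := γ / 5 + γ / 5) (by positivity) hV (fun P hP => ?_) (ε := γ / 5) (by positivity)).mono
    fun n hn => by linarith
  rw [Set.mem_union, not_or, Set.notMem_compl_iff] at hP
  obtain ⟨x, hx, hmax⟩ := exists_max_image (S.F P) φ (S.F_ne P)
  have hfin : {y | φ y < φ x + 1}.Finite := (Set.finite_Iio _).preimage φ.injective.injOn
  have a1 : S.cnt C P ≤ (C ∩ {y | φ y < φ x + 1}).ncard := by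
    rw [cnt, Nat.cast_le, ← Set.ncard_coe_finset]
    exact Set.ncard_le_ncard (fun y hy => ⟨(mem_filter.1 hy).2,
      Nat.lt_succ_of_le (hmax y (mem_filter.1 hy).1)⟩) (hfin.inter_of_right _)
  have hN := N_pos (S := S) P
  set A1 := (hl.nb (K1 + K2 + s0) P).filter fun Q => (Q = P ∨ Q ∈ inn P ∧ S.Near l K2 P Q) ∨
    ∃ R, (Q ∈ inn R ∧ S.Near l K2 R Q) ∧ R ∈ inn P ∧ S.Near l K1 P R
  set far : ι → Finset ι := fun R => (inn R).filter fun Q => ¬ S.Near l K2 R Q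
  set A2 := (inn P).filter (S.Near l K1 P)
  have a2 := card_le_sum_cnt (S := S) (W := (hfin.inter_of_right B).toFinset) (X := B)
    (A := A1 ∪ (far P ∪ A2.biUnion far)) injective_id fun y hy => by
      obtain ⟨b1, b2⟩ := (Set.Finite.mem_toFinset _).1 hy
      refine ⟨b1, ?_⟩
      have b3 := hφ x y (Nat.le_of_lt_succ b2)
      have b4 := h4 _ _ hP.1
      rw [(S.mem_F _ _).1 hx] at b3
      rw [id]
      rcases path P _ (S.Near l K1 P) ((hK1 P hP.1).trans_lt (by linarith)) b3 with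
        e | e | ⟨R, e1, e2⟩
      · exact mem_union_left _ (mem_filter.2 ⟨hl.mem_nb.2 (by rw [e]; unfold Near; omega),
          Or.inl (Or.inl e)⟩)
      · by_cases b5 : S.Near l K2 P (S.pc y)
        · exact mem_union_left _ (mem_filter.2 ⟨hl.mem_nb.2 (b5.mono (by omega)),
            Or.inl (Or.inr ⟨e, b5⟩)⟩)
        · exact mem_union_right _ (mem_union_left _ (mem_filter.2 ⟨e, b5⟩))
      · by_cases b5 : S.Near l K2 R (S.pc y)
        · have b6 := (mem_filter.1 e1).2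
          exact mem_union_left _ (mem_filter.2 ⟨hl.mem_nb.2 (by unfold Near at b5 b6 ⊢; omega),
            Or.inr ⟨R, ⟨e2, b5⟩, mem_filter.1 e1⟩⟩)
        · exact mem_union_right _ (mem_union_right _
            (mem_biUnion.2 ⟨R, e1, mem_filter.2 ⟨e2, b5⟩⟩))
  rw [← Set.ncard_eq_toFinset_card _ (hfin.inter_of_right B)] at a2
  have a3 : ((C ∩ {y | φ y < φ x + 1}).ncard : ℝ) ≤ (B ∩ {y | φ y < φ x + 1}).ncard := by
    exact_mod_cast hC _
  have a4 : ∑ Q ∈ far P, S.cnt B Q ≤ γ / 5 * S.N P :=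
    (sum_le_sum fun Q _ => cnt_le_N B Q).trans (hK2 P hP.1)
  have a5 : ∑ R ∈ A2, ∑ Q ∈ far R, S.cnt B Q ≤ γ / 5 * S.N P := by
    have b1 : ∑ R ∈ A2, S.N R ≤ c * S.N P := (sum_le_sum_of_subset_of_nonneg
      (fun R hR => hl.mem_nb.2 (mem_filter.1 hR).2) fun R _ _ => (N_pos R).le).trans
        (hl.sum_nb K1 P)
    refine (sum_le_sum (g := fun R => γ / 5 / c * S.N R) fun R hR =>
      (sum_le_sum fun Q _ => cnt_le_N B Q).trans (hK3 R ?_)).trans ?_
    · by_contra h'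
      exact hP.2 ⟨R, h', mem_filter.1 hR⟩
    · rw [← mul_sum]
      refine (mul_le_mul_of_nonneg_left b1 (by positivity)).trans (le_of_eq ?_)
      field_simp
  have a6 := sum_union_le' A1 (far P ∪ A2.biUnion far) (cnt_nonneg (S := S) B)
  have a7 := sum_union_le' (far P) (A2.biUnion far) (cnt_nonneg (S := S) B)
  have a8 := sum_biUnion_le' A2 far (cnt_nonneg (S := S) B)
  have a9 : S.cnt C P ≤ (γ / 5 + γ / 5) * S.N P + ∑ Q ∈ A1, S.cnt B Q := by linarith
  convert a9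

end Sys

end Pool.Agent.P.MP_f6e960_lc
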